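import Pool.Agent.U299.RS.Dat

/-! # From the description to rotation snarks -/

set_option autoImplicit false

namespace Pool.Agent.U299.RS

open Pool.Agent.N366.RS (width width_pos Node IsChild tree leaf IsSnark IsRotationTSnark)

namespace Dat

variable {J L : Type} {D : Dat J L} {i : ℕ} {pos : J ⊕ L → ℕ × ℕ} {rot : L → L}

/-- The position of a vertex as a node of `T_i`. -/
def Pos.node (hP : D.Pos i pos rot) (x : Vx J L) : Node i :=
  ⟨posO pos x, by
    cases x with
    | none => exact Nat.zero_le _
    | some v => exact hP.le v, hP.posO_lt x⟩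

theorem Pos.node_bij (hP : D.Pos i pos rot) : Function.Bijective hP.node := by
  constructor
  · intro x y h
    exact hP.posO_inj (congrArg Subtype.val h)
  · rintro ⟨⟨d, c⟩, h1, h2⟩
    by_cases h0 : d = 0
    · subst h0
      refine ⟨none, Subtype.ext ?_⟩
      simp only [width, if_true] at h2
      simp only [Pos.node, posO, Prod.mk.injEq, true_and]
      omega
    · obtain ⟨v, hv⟩ := hP.surj d c (by omega) h1 h2
      exact ⟨some v, Subtype.ext hv⟩

/-- The bijection between `T_i` and the vertices. -/
noncomputable def Pos.phi (hP : D.Pos i pos rot) : Node i ≃ Vx J L :=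
  (Equiv.ofBijective _ hP.node_bij).symm

theorem Pos.phi_node (hP : D.Pos i pos rot) (x : Vx J L) : hP.phi (hP.node x) = x :=
  (Equiv.ofBijective _ hP.node_bij).symm_apply_apply x

theorem Pos.tree_adj (hP : D.Pos i pos rot) (hB : D.Basic) (p q : Node i)
    (h : (tree i).Adj p q) : D.gr.Adj (hP.phi p) (hP.phi q) := by
  have key : ∀ x y : Vx J L, IsChild (posO pos x) (posO pos y) → D.gr.Adj x y := by
    intro x y hxy
    cases y with
    | none =>
      have := hxy.1
      simp [posO] at this
    | some v =>
      have := hP.up_of_child hxy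
      rw [hP.gr_adj hB]
      exact Or.inr (Or.inl ⟨v, rfl, this.symm⟩)
  obtain ⟨x, rfl⟩ := hP.node_bij.2 p
  obtain ⟨y, rfl⟩ := hP.node_bij.2 q
  rw [hP.phi_node, hP.phi_node]
  rcases h with h | h
  · exact key x y h
  · exact (key y x h).symm

theorem Pos.leaf_eq (hP : D.Pos i pos rot) (hi : 1 ≤ i) (a : ℕ) :
    ∃ l, hP.phi (leaf i a) = some (Sum.inr l) ∧ (pos (Sum.inr l)).2 = a % width i := by
  obtain ⟨v, hv⟩ := hP.surj i (a % width i) hi le_rfl (Nat.mod_lt _ (width_pos i))
  cases v with
  | inl x =>
    have := hP.posJ x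
    rw [hv] at this
    exact absurd this (lt_irrefl _)
  | inr l =>
    refine ⟨l, ?_, by rw [hv]⟩
    have : leaf i a = hP.node (some (Sum.inr l)) := Subtype.ext hv.symm
    rw [this, hP.phi_node]

theorem Pos.leaf_adj (hP : D.Pos i pos rot) (hB : D.Basic) {l l' : L}
    (h : D.gr.Adj (some (Sum.inr l)) (some (Sum.inr l'))) : ∃ s, (D.io (l, s)).1 = l' := by
  rw [hP.gr_adj hB] at h
  rcases h with ⟨v, h1, h2⟩ | ⟨v, h1, h2⟩ | ⟨k, s, h1, h2⟩
  · exact absurd h2.symm (up_ne_leaf _ _)
  · exact absurd h2.symm (up_ne_leaf _ _)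
  · simp only [Option.some.injEq, Sum.inr.injEq] at h1 h2
    subst h1
    exact ⟨s, h2.symm⟩

theorem Pos.rotation (hP : D.Pos i pos rot) (hB : D.Basic) (hi : 1 ≤ i) (a b : ℕ)
    (h : D.gr.Adj (hP.phi (leaf i a)) (hP.phi (leaf i b))) :
    D.gr.Adj (hP.phi (leaf i (a + width i / 3))) (hP.phi (leaf i (b + width i / 3))) := by
  have key : ∀ a l, (pos (Sum.inr l)).2 = a % width i →
      hP.phi (leaf i (a + width i / 3)) = some (Sum.inr (rot l)) := by
    intro a l hl
    obtain ⟨l', h1, h2⟩ := hP.leaf_eq hi (a + width i / 3)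
    rw [h1]
    have : pos (Sum.inr l') = pos (Sum.inr (rot l)) := by
      refine Prod.ext (by rw [hP.posL, hP.posL]) ?_
      rw [h2, hP.rot_pos, hl, Nat.mod_add_mod]
    rw [hP.inj this]
  obtain ⟨l, h1, h2⟩ := hP.leaf_eq hi a
  obtain ⟨l', h1', h2'⟩ := hP.leaf_eq hi b
  rw [key a l h2, key b l' h2']
  rw [h1, h1'] at h
  obtain ⟨s, hs⟩ := hP.leaf_adj hB h
  rw [hP.gr_adj hB]
  refine Or.inr (Or.inr ⟨rot l, s, rfl, ?_⟩)
  rw [hP.rot_io, hs]

/-! ### Cubic -/

theorem Pos.cubic (hP : D.Pos i pos rot) (hB : D.Basic) (hi : 1 ≤ i) (x : Vx J L) :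
    (D.gr.neighborSet x).ncard = 3 := by
  have hs : ∀ x y, D.gr.Adj x y ↔ D.adj x y := fun x y => hP.gr_adj hB
  have hpos : ∀ {v w : J ⊕ L}, v = w ↔ pos v = pos w := fun {v w} =>
    ⟨fun h => by rw [h], fun h => hP.inj h⟩
  rw [Set.ncard_eq_three]
  cases x with
  | none =>
    obtain ⟨v0, h0⟩ := hP.surj 1 0 le_rfl hi (by norm_num [width])
    obtain ⟨v1, h1⟩ := hP.surj 1 1 le_rfl hi (by norm_num [width])
    obtain ⟨v2, h2⟩ := hP.surj 1 2 le_rfl hi (by norm_num [width])
    refine ⟨some v0, some v1, some v2, ?_, ?_, ?_, ?_⟩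
    · rw [Ne, Option.some.injEq, hpos, h0, h1]; simp
    · rw [Ne, Option.some.injEq, hpos, h0, h2]; simp
    · rw [Ne, Option.some.injEq, hpos, h1, h2]; simp
    · have hu : ∀ (v : J ⊕ L) (c : ℕ), pos v = (1, c) → D.up v = none := by
        intro v c hv
        apply hP.up_of_child
        rw [hv]
        exact ⟨rfl, Or.inl rfl⟩
      ext y
      rw [SimpleGraph.mem_neighborSet, hs]
      simp only [Set.mem_insert_iff, Set.mem_singleton_iff]
      constructor
      · rintro (⟨v, h, _⟩ | ⟨v, h, h'⟩ | ⟨l, s, h, _⟩)
        · simp at h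
        · have hd := hP.depth v
          have hl := hP.lt v
          rw [← h'] at hd
          simp only [posO, zero_add] at hd
          rw [hd] at hl
          have hw : width 1 = 3 := by norm_num [width]
          rw [hw] at hl
          have : pos v = (1, 0) ∨ pos v = (1, 1) ∨ pos v = (1, 2) := by
            have h3 : (pos v).2 = 0 ∨ (pos v).2 = 1 ∨ (pos v).2 = 2 := by omega
            rcases h3 with h3 | h3 | h3
            · exact Or.inl (Prod.ext hd h3)
            · exact Or.inr (Or.inl (Prod.ext hd h3))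
            · exact Or.inr (Or.inr (Prod.ext hd h3))
          rw [h]
          rcases this with h3 | h3 | h3
          · left; rw [hP.inj (h3.trans h0.symm)]
          · right; left; rw [hP.inj (h3.trans h1.symm)]
          · right; right; rw [hP.inj (h3.trans h2.symm)]
        · simp at h
      · rintro (rfl | rfl | rfl)
        · exact Or.inr (Or.inl ⟨v0, rfl, (hu v0 0 h0).symm⟩)
        · exact Or.inr (Or.inl ⟨v1, rfl, (hu v1 1 h1).symm⟩)
        · exact Or.inr (Or.inl ⟨v2, rfl, (hu v2 2 h2).symm⟩)
  | some v =>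
    cases v with
    | inl x =>
      have hx1 := hP.one_le (Sum.inl x)
      have hx2 := hP.posJ x
      have hx3 := hP.lt (Sum.inl x)
      obtain ⟨d, c⟩ : ℕ × ℕ := pos (Sum.inl x)
      have hpx : ∃ d c, pos (Sum.inl x) = (d + 1, c) :=
        ⟨(pos (Sum.inl x)).1 - 1, (pos (Sum.inl x)).2, Prod.ext (by simp; omega) rfl⟩
      clear d c
      obtain ⟨d, c, hx⟩ := hpx
      rw [hx] at hx2 hx3
      simp only at hx2 hx3
      have hw : width (d + 1 + 1) = 2 * width (d + 1) := by
        simp only [width, Nat.add_eq_zero_iff, one_ne_zero, and_false, if_false,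
          Nat.add_sub_cancel, pow_succ]
        ring
      obtain ⟨v0, h0⟩ := hP.surj (d + 1 + 1) (2 * c) (by omega) (by omega) (by omega)
      obtain ⟨v1, h1⟩ := hP.surj (d + 1 + 1) (2 * c + 1) (by omega) (by omega) (by omega)
      have hu : ∀ (v : J ⊕ L), pos v = (d + 1 + 1, 2 * c) ∨ pos v = (d + 1 + 1, 2 * c + 1) →
          D.up v = some (Sum.inl x) := by
        intro v hv
        apply hP.up_of_child
        rcases hv with hv | hv
        · rw [hv]
          refine ⟨?_, Or.inr ?_⟩
          · simp only [posO, hx]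
          · simp only [posO, hx]; omega
        · rw [hv]
          refine ⟨?_, Or.inr ?_⟩
          · simp only [posO, hx]
          · simp only [posO, hx]; omega
      have hup : (posO pos (D.up (Sum.inl x))).1 = d := by
        have := hP.depth (Sum.inl x)
        rw [hx] at this
        simp only at this
        omega
      refine ⟨D.up (Sum.inl x), some v0, some v1, ?_, ?_, ?_, ?_⟩
      · intro h
        rw [h] at hup
        simp only [posO, h0] at hup
        omega
      · intro h
        rw [h] at hup
        simp only [posO, h1] at hup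
        omega
      · rw [Ne, Option.some.injEq, hpos, h0, h1]; simp
      · ext y
        rw [SimpleGraph.mem_neighborSet, hs]
        simp only [Set.mem_insert_iff, Set.mem_singleton_iff]
        constructor
        · rintro (⟨v, h, h'⟩ | ⟨v, h, h'⟩ | ⟨l, s, h, _⟩)
          · left
            rw [h', ← Option.some.inj h]
          · right
            have hc := hP.child v
            rw [← h'] at hc
            simp only [posO, hx] at hc
            have hv1 : (pos v).1 = d + 1 + 1 := hc.1
            have hv2 : c = (pos v).2 / 2 := by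
              rcases hc.2 with h3 | h3
              · exact absurd h3 (by simp)
              · exact h3
            have h3 : (pos v).2 = 2 * c ∨ (pos v).2 = 2 * c + 1 := by omega
            rw [h]
            rcases h3 with h3 | h3
            · left
              have : pos v = pos v0 := by rw [h0]; exact Prod.ext hv1 h3
              rw [hP.inj this]
            · right
              have : pos v = pos v1 := by rw [h1]; exact Prod.ext hv1 h3
              rw [hP.inj this]
          · simp at h
        · rintro (rfl | rfl | rfl)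
          · exact Or.inl ⟨_, rfl, rfl⟩
          · exact Or.inr (Or.inl ⟨v0, rfl, (hu v0 (Or.inl h0)).symm⟩)
          · exact Or.inr (Or.inl ⟨v1, rfl, (hu v1 (Or.inr h1)).symm⟩)
    | inr l =>
      refine ⟨D.up (Sum.inr l), some (Sum.inr (D.io (l, false)).1),
        some (Sum.inr (D.io (l, true)).1), up_ne_leaf _ _, up_ne_leaf _ _, ?_, ?_⟩
      · simp only [ne_eq, Option.some.injEq, Sum.inr.injEq]
        exact hB.simple l
      · ext y
        rw [SimpleGraph.mem_neighborSet, hs]
        simp only [Set.mem_insert_iff, Set.mem_singleton_iff]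
        constructor
        · rintro (⟨v, h, h'⟩ | ⟨v, h, h'⟩ | ⟨k, s, h, h'⟩)
          · left
            rw [h', ← Option.some.inj h]
          · exact absurd h'.symm (up_ne_leaf _ _)
          · right
            simp only [Option.some.injEq, Sum.inr.injEq] at h
            subst h
            cases s
            · exact Or.inl h'
            · exact Or.inr h'
        · rintro (rfl | rfl | rfl)
          · exact Or.inl ⟨_, rfl, rfl⟩
          · exact Or.inr (Or.inr ⟨l, false, rfl, rfl⟩)
          · exact Or.inr (Or.inr ⟨l, true, rfl, rfl⟩)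

/-! ### Girth -/

theorem Pos.girth (hP : D.Pos i pos rot) (hB : D.Basic) (h3 : D.TriFree) (h4 : D.QuadFree)
    (v : Vx J L) (c : D.gr.Walk v v) (hc : c.IsCycle) : 5 ≤ c.length := by
  by_contra hlt
  have hle := hc.three_le_length
  have hs : ∀ {x y}, D.gr.Adj x y → D.adj x y := fun h => (hP.gr_adj hB).1 h
  have hnd := hc.support_nodup
  rcases c with _ | ⟨a1, c⟩
  · simp at hle
  rcases c with _ | ⟨a2, c⟩
  · simp at hle
  rcases c with _ | ⟨a3, c⟩
  · simp at hle
  rcases c with _ | ⟨a4, c⟩
  · exact h3 _ _ _ (hs a1) (hs a2) (hs a3)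
  rcases c with _ | ⟨a5, c⟩
  · refine h4 _ _ _ _ (hs a1) (hs a2) (hs a3) (hs a4) ?_ ?_
    · simp [SimpleGraph.Walk.support_cons] at hnd
      tauto
    · simp [SimpleGraph.Walk.support_cons] at hnd
      tauto
  · simp [SimpleGraph.Walk.length_cons] at hlt

/-! ### Colourings -/

theorem Pos.uncolourable (hP : D.Pos i pos rot) (hB : D.Basic) (h : ¬ D.Colourable) :
    ¬ ∃ f : Sym2 (Vx J L) → Fin 3, ∀ u v w : Vx J L, D.gr.Adj u v → D.gr.Adj u w → v ≠ w →
      f s(u, v) ≠ f s(u, w) := by
  rintro ⟨f, hf⟩
  have hs : ∀ {x y}, D.adj x y → D.gr.Adj x y := fun h => (hP.gr_adj hB).2 h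
  apply h
  refine ⟨fun v => f s(some v, D.up v),
    fun h => f s(some (Sum.inr h.1), some (Sum.inr (D.io h).1)), ?_, ?_, ?_, ?_, ?_⟩
  · intro h
    simp only
    rw [hB.inv, Sym2.eq_swap]
  · intro l
    refine hf _ _ _ (hs (Or.inr (Or.inr ⟨l, false, rfl, rfl⟩)))
      (hs (Or.inr (Or.inr ⟨l, true, rfl, rfl⟩))) ?_
    simp only [ne_eq, Option.some.injEq, Sum.inr.injEq]
    exact hB.simple l
  · intro l s
    refine hf _ _ _ (hs (Or.inr (Or.inr ⟨l, s, rfl, rfl⟩))) (hs (Or.inl ⟨_, rfl, rfl⟩)) ?_
    exact (up_ne_leaf _ _).symm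
  · intro v x hv
    have hv' := up_eq_some.2 hv
    simp only
    rw [hv', Sym2.eq_swap]
    refine hf _ _ _ (hs (Or.inr (Or.inl ⟨v, rfl, hv'.symm⟩))) (hs (Or.inl ⟨_, rfl, rfl⟩)) ?_
    exact (hP.no2 hv').symm
  · intro v w hvw h
    have h' : D.up v = D.up w := by unfold up; rw [h]
    simp only
    rw [← h', Sym2.eq_swap, Sym2.eq_swap (a := some w)]
    refine hf _ _ _ (hs (Or.inr (Or.inl ⟨v, rfl, rfl⟩))) (hs (Or.inr (Or.inl ⟨w, rfl, h'⟩))) ?_
    simpa using hvw

/-! ### Cyclic connectivity -/

theorem tn_eq (b : Bool) {inst : Decidable (b = true)} :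
    b.toNat = @ite ℕ (b = true) inst 1 0 := by
  cases b <;> simp

/-- The number of crossing edges is bounded by any edge set containing all of them. -/
theorem Pos.cut_le [Fintype J] [Fintype L] (hP : D.Pos i pos rot) (hB : D.Basic)
    (S : Vx J L → Bool) (A : Set (Sym2 (Vx J L)))
    (h : ∀ x y, D.adj x y → S x = true → S y = false → s(x, y) ∈ A) : D.cut S ≤ A.ncard := by
  classical
  let E := (J ⊕ L) ⊕ (L × Bool)
  let cr : E → Bool := fun e => match e with
    | Sum.inl v => xor (S (some v)) (S (D.up v))
    | Sum.inr h => S (some (Sum.inr h.1)) && !S (some (Sum.inr (D.io h).1))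
  let ed : E → Sym2 (Vx J L) := fun e => match e with
    | Sum.inl v => s(some v, D.up v)
    | Sum.inr h => s(some (Sum.inr h.1), some (Sum.inr (D.io h).1))
  have hcut : D.cut S = (Finset.univ.filter (fun e => cr e = true)).card := by
    rw [Finset.card_filter, Fintype.sum_sum_type]
    unfold cut
    congr 1
    · exact Finset.sum_congr rfl fun v _ => tn_eq _
    · exact Finset.sum_congr rfl fun v _ => tn_eq _
  rw [hcut, ← Finset.card_image_of_injOn (f := ed), ← Set.ncard_coe_finset]
  · apply Set.ncard_le_ncard _ (Set.toFinite _)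
    intro z hz
    simp only [Finset.coe_image, Set.mem_image, Finset.coe_filter, Finset.mem_univ, true_and,
      Set.mem_ofPred_eq] at hz
    obtain ⟨e, he, rfl⟩ := hz
    cases e with
    | inl v =>
      simp only [cr] at he
      simp only [ed]
      cases h1 : S (some v) with
      | true =>
        refine h _ _ (Or.inl ⟨v, rfl, rfl⟩) h1 ?_
        rw [h1] at he
        cases h2 : S (D.up v) with
        | true => rw [h2] at he; exact absurd he (by simp)
        | false => rfl
      | false =>
        rw [Sym2.eq_swap]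
        refine h _ _ (Or.inr (Or.inl ⟨v, rfl, rfl⟩)) ?_ h1
        rw [h1] at he
        cases h2 : S (D.up v) with
        | false => rw [h2] at he; exact absurd he (by simp)
        | true => rfl
    | inr k =>
      simp only [cr, Bool.and_eq_true, Bool.not_eq_true'] at he
      exact h _ _ (Or.inr (Or.inr ⟨k.1, k.2, rfl, rfl⟩)) he.1 he.2
  · intro e he e' he' hee
    simp only [Finset.coe_filter, Finset.mem_univ, true_and, Set.mem_ofPred_eq] at he he'
    cases e with
    | inl v =>
      cases e' with
      | inl w =>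
        simp only [ed, Sym2.eq_iff] at hee
        rcases hee with ⟨h1, _⟩ | ⟨h1, h2⟩
        · rw [Option.some.inj h1]
        · exact absurd h2 (hP.no2 h1.symm)
      | inr k =>
        simp only [ed, Sym2.eq_iff] at hee
        rcases hee with ⟨_, h2⟩ | ⟨_, h2⟩
        · exact absurd h2 (up_ne_leaf _ _)
        · exact absurd h2 (up_ne_leaf _ _)
    | inr k =>
      cases e' with
      | inl w =>
        simp only [ed, Sym2.eq_iff] at hee
        rcases hee with ⟨_, h2⟩ | ⟨h2, _⟩
        · exact absurd h2.symm (up_ne_leaf _ _)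
        · exact absurd h2.symm (up_ne_leaf _ _)
      | inr k' =>
        simp only [cr, Bool.and_eq_true, Bool.not_eq_true'] at he he'
        simp only [ed, Sym2.eq_iff] at hee
        rcases hee with ⟨h1, h2⟩ | ⟨h1, h2⟩
        · simp only [Option.some.injEq, Sum.inr.injEq] at h1 h2
          obtain ⟨l, s⟩ := k
          obtain ⟨l', s'⟩ := k'
          simp only at h1
          subst h1
          have := hB.simple l
          congr 2
          cases s <;> cases s' <;> simp_all
        · rw [h1] at he
          simp [he.1] at he'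

theorem Pos.cyclic [Fintype J] [Fintype L] (hP : D.Pos i pos rot) (hB : D.Basic)
    (hC : D.CutGood) (A : Set (Sym2 (Vx J L))) (_ : A ⊆ D.gr.edgeSet) (hA : A.ncard < 4)
    (u v : Vx J L) (c : (D.gr.deleteEdges A).Walk u u) (d : (D.gr.deleteEdges A).Walk v v)
    (hc : c.IsCycle) (hd : d.IsCycle) : (D.gr.deleteEdges A).Reachable u v := by
  classical
  by_contra hr
  let S : Vx J L → Bool := fun x => decide ((D.gr.deleteEdges A).Reachable u x)
  have hcut := hP.cut_le hB S A (by
    intro x y hxy hx hy
    by_contra hn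
    simp only [S, decide_eq_true_eq, decide_eq_false_iff_not] at hx hy
    apply hy
    refine hx.trans (SimpleGraph.Adj.reachable ?_)
    rw [SimpleGraph.deleteEdges_adj]
    exact ⟨(hP.gr_adj hB).2 hxy, hn⟩)
  have hu : S u = true := by simp [S]
  have hv : S v = false := by simp [S, hr]
  have nbr : ∀ (w : Vx J L) (c : (D.gr.deleteEdges A).Walk w w), c.IsCycle →
      ∃ w', w' ≠ w ∧ (D.gr.deleteEdges A).Reachable w w' := by
    intro w c hc
    cases c with
    | nil => exact absurd rfl hc.ne_nil
    | cons h p => exact ⟨_, h.ne', h.reachable⟩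
  obtain ⟨u', hu1, hu2⟩ := nbr u c hc
  obtain ⟨v', hv1, hv2⟩ := nbr v d hd
  have hu' : S u' = true := by simp [S, hu2]
  have hv' : S v' = false := by
    simp only [S, decide_eq_false_iff_not]
    intro h
    exact hr (h.trans hv2.symm)
  rcases hC S with h | ⟨q, h⟩ | ⟨_, x, q, h1, h2⟩
  · omega
  · have e1 := h u
    have e2 := h v
    rw [hu] at e1
    rw [hv, ← e1] at e2
    exact absurd e2 (by simp)
  · have huv : ∀ {y z : Vx J L}, S y = true → S z = true → y ≠ z → q = true := by
      intro y z hy hz hyz
      by_contra hq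
      have hq : q = false := by simpa using hq
      have e1 : y = x := by
        by_contra hne
        rw [h2 y hne, hq] at hy
        exact absurd hy (by simp)
      have e2 : z = x := by
        by_contra hne
        rw [h2 z hne, hq] at hz
        exact absurd hz (by simp)
      exact hyz (e1.trans e2.symm)
    have hvv : ∀ {y z : Vx J L}, S y = false → S z = false → y ≠ z → q = false := by
      intro y z hy hz hyz
      by_contra hq
      have hq : q = true := by simpa using hq
      have e1 : y = x := by
        by_contra hne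
        rw [h2 y hne, hq] at hy
        exact absurd hy (by simp)
      have e2 : z = x := by
        by_contra hne
        rw [h2 z hne, hq] at hz
        exact absurd hz (by simp)
      exact hyz (e1.trans e2.symm)
    have a1 := huv hu' hu hu1
    have a2 := hvv hv' hv hv1
    rw [a1] at a2
    exact absurd a2 (by simp)

theorem Pos.isRotationTSnark [Fintype J] [Fintype L] (hP : D.Pos i pos rot) (hB : D.Basic)
    (hi : 2 ≤ i) (h3 : D.TriFree) (h4 : D.QuadFree) (hC : D.CutGood) (hN : ¬ D.Colourable) :
    IsRotationTSnark i D.gr :=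
  ⟨hi, ⟨hP.cubic hB (by omega), hP.cyclic hB hC, hP.girth hB h3 h4, hP.uncolourable hB hN⟩,
    hP.phi, hP.tree_adj hB, hP.rotation hB (by omega)⟩

end Dat

end Pool.Agent.U299.RS
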