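import Pool.Agent.U299.RS.Base
import Pool.Agent.U299.RS.Conv

/-! # Infinitely many rotation snarks -/

set_option autoImplicit false

namespace Pool.Agent.U299.RS

open Pool.Agent.N366.RS (width width_pos Node IsChild tree leaf IsSnark IsRotationTSnark)

/-- A description of a rotation `T_i`-snark. -/
def Ok (i : ℕ) : Prop := ∃ (J L : Type) (_ : Fintype J) (_ : Fintype L) (D : Dat J L)
  (pos : J ⊕ L → ℕ × ℕ) (rot : L → L), D.Basic ∧ D.Pos i pos rot ∧ D.TriFree ∧ D.QuadFree ∧
  D.CutGood ∧ ¬ D.Colourable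

theorem ok_two : Ok 2 :=
  ⟨Fin 3, Fin 6, inferInstance, inferInstance, Pet.dat, Pet.pos, Pet.ro, Pet.basic, Pet.ispos,
    Pet.triFree, Pet.quadFree, Pet.cutGood, Pet.uncol⟩

theorem ok_step {i : ℕ} (hi : 1 ≤ i) (h : Ok i) : Ok (i + 3) := by
  obtain ⟨J, L, _, _, D, pos, rot, hB, hP, hT, hQ, hC, hN⟩ := h
  exact ⟨J ⊕ L × Fin 7, L × Fin 8, inferInstance, inferInstance, D.phi, Dat.pos' i pos,
    fun h => (rot h.1, h.2), Dat.phi_basic hB, Dat.phi_pos hP hi, Dat.phi_triFree hP hB hT,
    Dat.phi_quadFree hP hB hT hQ, Dat.phi_cutGood hB hC, fun h => hN (Dat.phi_colourable h)⟩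

theorem ok_all (n : ℕ) : Ok (3 * n + 2) := by
  induction n with
  | zero => exact ok_two
  | succ n ih => exact ok_step (by omega) ih

theorem Ok.exists {i : ℕ} (hi : 2 ≤ i) (h : Ok i) :
    ∃ (V : Type) (G : SimpleGraph V), Finite V ∧ IsRotationTSnark i G := by
  obtain ⟨J, L, _, _, D, pos, rot, hB, hP, hT, hQ, hC, hN⟩ := h
  exact ⟨Vx J L, D.gr, inferInstance, hP.isRotationTSnark hB hi hT hQ hC hN⟩

/-- Different trees have different numbers of vertices. -/
theorem node_empty {i j : ℕ} (hij : i < j) (e : Node i ≃ Node j) : False := by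
  have hfin : Finite (Node j) := by
    have : Set.Finite {p : ℕ × ℕ | p.1 ≤ j ∧ p.2 < width p.1} := by
      refine Set.Finite.subset ((Set.finite_Iic j).prod (Set.finite_Iic (3 * 2 ^ j))) ?_
      rintro ⟨d, c⟩ ⟨h1, h2⟩
      simp only [Set.mem_prod, Set.mem_Iic]
      simp only at h1 h2
      refine ⟨h1, h2.le.trans ?_⟩
      unfold width
      split_ifs with h
      · have : 0 < 2 ^ j := by positivity
        omega
      · exact Nat.mul_le_mul_left _ (Nat.pow_le_pow_right (by norm_num) (by omega))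
    exact this
  let f : Node j → Node j := fun p => ⟨(e.symm p).1, (e.symm p).2.1.trans hij.le, (e.symm p).2.2⟩
  have hf : Function.Injective f := by
    intro p q h
    have : (e.symm p).1 = (e.symm q).1 := congrArg (fun x : Node j => x.1) h
    exact e.symm.injective (Subtype.ext this)
  obtain ⟨p, hp⟩ := Finite.surjective_of_injective hf ⟨(j, 0), le_rfl, width_pos j⟩
  have h1 : (e.symm p).1.1 = j := congrArg (fun x : Node j => x.1.1) hp
  have h2 := (e.symm p).2.1
  omega

theorem not_iso {i j : ℕ} (hij : i ≠ j) {V W : Type} {G : SimpleGraph V} {H : SimpleGraph W}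
    (hG : IsRotationTSnark i G) (hH : IsRotationTSnark j H) : IsEmpty (G ≃g H) := by
  refine ⟨fun f => ?_⟩
  obtain ⟨_, _, φ, _⟩ := hG
  obtain ⟨_, _, ψ, _⟩ := hH
  have e : Node i ≃ Node j := (φ.trans f.toEquiv).trans ψ.symm
  rcases lt_or_gt_of_ne hij with h | h
  · exact node_empty h e
  · exact node_empty h e.symm

end Pool.Agent.U299.RS
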