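import Pool.Agent.U299.RS.Colp

/-! # The Petersen graph -/

set_option autoImplicit false

namespace Pool.Agent.U299.RS

open Pool.Agent.N366.RS (width width_pos Node IsChild tree leaf IsSnark IsRotationTSnark)

namespace Pet

def nx : Fin 6 → Fin 6 := ![5, 4, 1, 0, 3, 2]
def pv : Fin 6 → Fin 6 := ![3, 2, 5, 4, 1, 0]
def pa : Fin 6 → Fin 3 := ![0, 0, 1, 1, 2, 2]
def ro : Fin 6 → Fin 6 := ![2, 3, 4, 5, 0, 1]

/-- The Petersen graph: the six leaves form a 6-cycle. -/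
def dat : Dat (Fin 3) (Fin 6) where
  par
    | Sum.inl _ => none
    | Sum.inr l => some (pa l)
  io
    | (l, true) => (nx l, false)
    | (l, false) => (pv l, true)

def pos : Fin 3 ⊕ Fin 6 → ℕ × ℕ
  | Sum.inl x => (1, x.val)
  | Sum.inr l => (2, l.val)

theorem basic : dat.Basic := by
  refine ⟨?_, ?_, ?_⟩
  · unfold dat; decide
  · unfold dat; decide
  · unfold dat; decide

theorem ispos : dat.Pos 2 pos ro := by
  refine ⟨?_, ?_, fun _ => rfl, fun _ => by simp [pos], ?_, ?_, ?_, ?_⟩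
  · rintro (x | l)
    · exact ⟨rfl, Or.inl rfl⟩
    · refine ⟨rfl, Or.inr ?_⟩
      revert l
      decide
  · rintro (x | l) (x' | l') h
    · simp only [pos, Prod.mk.injEq, true_and] at h
      rw [Fin.ext h]
    · simp [pos] at h
    · simp [pos] at h
    · simp only [pos, Prod.mk.injEq, true_and] at h
      rw [Fin.ext h]
  · rintro (x | l)
    · have : width 1 = 3 := by norm_num [width]
      simp only [pos, this]
      exact x.2
    · have : width 2 = 6 := by norm_num [width]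
      simp only [pos, this]
      exact l.2
  · intro d c h1 h2 hc
    have hd : d = 1 ∨ d = 2 := by omega
    rcases hd with rfl | rfl
    · have : width 1 = 3 := by norm_num [width]
      rw [this] at hc
      exact ⟨Sum.inl ⟨c, hc⟩, rfl⟩
    · have : width 2 = 6 := by norm_num [width]
      rw [this] at hc
      exact ⟨Sum.inr ⟨c, hc⟩, rfl⟩
  · have : width 2 = 6 := by norm_num [width]
    rw [this]
    decide
  · decide

/-- Numbers of the vertices. -/
def ix : Vx (Fin 3) (Fin 6) → Fin 10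
  | none => 0
  | some (Sum.inl x) => ⟨x.val + 1, by omega⟩
  | some (Sum.inr l) => ⟨l.val + 4, by omega⟩

def ms : Fin 10 → ℕ := ![14, 49, 193, 769, 642, 322, 548, 280, 136, 84]

/-- Adjacency of numbers. -/
def pl : List (Fin 10 × Fin 10) :=
  [(0, 1), (0, 2), (0, 3), (1, 4), (1, 5), (2, 6), (2, 7), (3, 8), (3, 9), (4, 9), (9, 6), (6, 5),
    (5, 8), (8, 7), (7, 4)]

def padj (p q : Fin 10) : Bool := decide ((p, q) ∈ pl) || decide ((q, p) ∈ pl)

theorem ix_inj : Function.Injective ix := by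
  rintro (_ | x | l) (_ | x' | l') h
  · rfl
  · have h' : (0 : ℕ) = x'.val + 1 := congrArg Fin.val h
    omega
  · have h' : (0 : ℕ) = l'.val + 4 := congrArg Fin.val h
    omega
  · have h' : x.val + 1 = (0 : ℕ) := congrArg Fin.val h
    omega
  · have h' : x.val + 1 = x'.val + 1 := congrArg Fin.val h
    rw [show x = x' from Fin.ext (by omega)]
  · have h' : x.val + 1 = l'.val + 4 := congrArg Fin.val h
    omega
  · have h' : l.val + 4 = (0 : ℕ) := congrArg Fin.val h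
    omega
  · have h' : l.val + 4 = x'.val + 1 := congrArg Fin.val h
    omega
  · have h' : l.val + 4 = l'.val + 4 := congrArg Fin.val h
    rw [show l = l' from Fin.ext (by omega)]

theorem padj_symm : ∀ p q, padj p q = padj q p := by decide +kernel

theorem adj_padj {x y : Vx (Fin 3) (Fin 6)} (h : dat.adj x y) : padj (ix x) (ix y) = true := by
  rcases h with ⟨v, rfl, rfl⟩ | ⟨v, rfl, rfl⟩ | ⟨l, s, rfl, rfl⟩
  · revert v
    decide +kernel
  · rw [padj_symm]
    revert v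
    decide +kernel
  · revert l s
    decide +kernel

theorem padj_tri : ∀ p q, padj p q = true → ∀ r, padj q r = true → padj r p = false := by
  decide +kernel

theorem padj_quad : ∀ p q, padj p q = true → ∀ r, padj q r = true → p ≠ r →
    ∀ s, padj r s = true → q ≠ s → padj s p = false := by
  decide +kernel

theorem triFree : dat.TriFree := by
  intro x y z h1 h2 h3
  have := padj_tri _ _ (adj_padj h1) _ (adj_padj h2)
  rw [adj_padj h3] at this
  exact absurd this (by simp)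

theorem quadFree : dat.QuadFree := by
  intro x y z w h1 h2 h3 h4 h5 h6
  have := padj_quad _ _ (adj_padj h1) _ (adj_padj h2) (fun h => h5 (ix_inj h)) _ (adj_padj h3)
    (fun h => h6 (ix_inj h))
  rw [adj_padj h4] at this
  exact absurd this (by simp)

set_option synthInstance.maxSize 100000 in
set_option maxRecDepth 100000 in
theorem cutAux : ∀ b0 b1 b2 b3 : Bool, dd b1 b0 + dd b2 b0 + dd b3 b0 < 4 →
    ∀ b4 b5 b6 b7 b8 b9 : Bool, dd b1 b0 + dd b2 b0 + dd b3 b0 + dd b4 b1 + dd b5 b1 + dd b6 b2 +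
      dd b7 b2 + dd b8 b3 + dd b9 b3 + dd b4 b9 + dd b9 b6 + dd b6 b5 + dd b5 b8 + dd b8 b7 +
      dd b7 b4 < 4 →
    (∃ q, ∀ p, ![b0, b1, b2, b3, b4, b5, b6, b7, b8, b9] p = q) ∨
    (3 ≤ dd b1 b0 + dd b2 b0 + dd b3 b0 + dd b4 b1 + dd b5 b1 + dd b6 b2 +
      dd b7 b2 + dd b8 b3 + dd b9 b3 + dd b4 b9 + dd b9 b6 + dd b6 b5 + dd b5 b8 + dd b8 b7 +
      dd b7 b4 ∧
      ∃ p q, ![b0, b1, b2, b3, b4, b5, b6, b7, b8, b9] p = !q ∧
      ∀ p', p' ≠ p → ![b0, b1, b2, b3, b4, b5, b6, b7, b8, b9] p' = q) := by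
  decide +kernel

theorem vx_eq (S : Vx (Fin 3) (Fin 6) → Bool) (x : Vx (Fin 3) (Fin 6)) :
    S x = ![S none, S (some (Sum.inl 0)), S (some (Sum.inl 1)), S (some (Sum.inl 2)),
      S (some (Sum.inr 0)), S (some (Sum.inr 1)), S (some (Sum.inr 2)), S (some (Sum.inr 3)),
      S (some (Sum.inr 4)), S (some (Sum.inr 5))] (ix x) := by
  rcases x with _ | x | l
  · rfl
  · fin_cases x <;> rfl
  · fin_cases l <;> rfl

theorem ix_surj : Function.Surjective ix := by
  intro p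
  fin_cases p
  · exact ⟨none, rfl⟩
  · exact ⟨some (Sum.inl 0), rfl⟩
  · exact ⟨some (Sum.inl 1), rfl⟩
  · exact ⟨some (Sum.inl 2), rfl⟩
  · exact ⟨some (Sum.inr 0), rfl⟩
  · exact ⟨some (Sum.inr 1), rfl⟩
  · exact ⟨some (Sum.inr 2), rfl⟩
  · exact ⟨some (Sum.inr 3), rfl⟩
  · exact ⟨some (Sum.inr 4), rfl⟩
  · exact ⟨some (Sum.inr 5), rfl⟩

theorem cutGood : dat.CutGood := by
  intro S
  have e : dat.cut S = dd (S (some (Sum.inl 0))) (S none) + dd (S (some (Sum.inl 1))) (S none) +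
      dd (S (some (Sum.inl 2))) (S none) + dd (S (some (Sum.inr 0))) (S (some (Sum.inl 0))) +
      dd (S (some (Sum.inr 1))) (S (some (Sum.inl 0))) +
      dd (S (some (Sum.inr 2))) (S (some (Sum.inl 1))) +
      dd (S (some (Sum.inr 3))) (S (some (Sum.inl 1))) +
      dd (S (some (Sum.inr 4))) (S (some (Sum.inl 2))) +
      dd (S (some (Sum.inr 5))) (S (some (Sum.inl 2))) +
      dd (S (some (Sum.inr 0))) (S (some (Sum.inr 5))) +
      dd (S (some (Sum.inr 5))) (S (some (Sum.inr 2))) +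
      dd (S (some (Sum.inr 2))) (S (some (Sum.inr 1))) +
      dd (S (some (Sum.inr 1))) (S (some (Sum.inr 4))) +
      dd (S (some (Sum.inr 4))) (S (some (Sum.inr 3))) +
      dd (S (some (Sum.inr 3))) (S (some (Sum.inr 0))) := by
    unfold Dat.cut
    rw [Fintype.sum_sum_type, Fintype.sum_prod_type, Fin.sum_univ_three, Fin.sum_univ_six,
      Fin.sum_univ_six]
    simp only [Fintype.sum_bool, ← gg_add]
    have u0 : ∀ x, dat.up (Sum.inl x) = none := fun x => rfl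
    have u1 : ∀ l, dat.up (Sum.inr l) = some (Sum.inl (pa l)) := fun l => rfl
    have i1 : ∀ l, (dat.io (l, true)).1 = nx l := fun l => rfl
    have i2 : ∀ l, (dat.io (l, false)).1 = pv l := fun l => rfl
    have p0 : pa 0 = 0 := rfl
    have p1 : pa 1 = 0 := rfl
    have p2 : pa 2 = 1 := rfl
    have p3 : pa 3 = 1 := rfl
    have p4 : pa 4 = 2 := rfl
    have p5 : pa 5 = 2 := rfl
    have n0 : nx 0 = 5 := rfl
    have n1 : nx 1 = 4 := rfl
    have n2 : nx 2 = 1 := rfl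
    have n3 : nx 3 = 0 := rfl
    have n4 : nx 4 = 3 := rfl
    have n5 : nx 5 = 2 := rfl
    have q0 : pv 0 = 3 := rfl
    have q1 : pv 1 = 2 := rfl
    have q2 : pv 2 = 5 := rfl
    have q3 : pv 3 = 4 := rfl
    have q4 : pv 4 = 1 := rfl
    have q5 : pv 5 = 0 := rfl
    simp only [u0, u1, i1, i2, p0, p1, p2, p3, p4, p5, n0, n1, n2, n3, n4, n5, q0, q1, q2, q3, q4,
      q5]
    ring
  by_cases h : 4 ≤ dat.cut S
  · exact Or.inl h
  · right
    have h' := h
    rw [e, not_le] at h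
    have := cutAux _ _ _ _ (pl2 (pl2 (pl2 (pl2 (pl2 (pl2 h)))))) _ _ _ _ _ _ h
    rw [← e] at this
    rcases this with ⟨q, hq⟩ | ⟨h3, p, q, h4, h5⟩
    · left
      exact ⟨q, fun x => by rw [vx_eq S x]; exact hq _⟩
    · right
      obtain ⟨x, rfl⟩ := ix_surj p
      refine ⟨h3, x, q, by rw [vx_eq S x]; exact h4, fun y hy => ?_⟩
      rw [vx_eq S y]
      exact h5 _ fun h => hy (ix_inj h)

set_option synthInstance.maxSize 100000 in
set_option maxRecDepth 100000 in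
theorem colAux : ∀ a0 a1 : Fin 3, a0 ≠ a1 → ∀ a2 : Fin 3, a0 ≠ a2 → a1 ≠ a2 →
    ∀ c0 : Fin 3, c0 ≠ a0 → ∀ c1 : Fin 3, c1 ≠ a0 → c0 ≠ c1 →
    ∀ c2 : Fin 3, c2 ≠ a1 → ∀ c3 : Fin 3, c3 ≠ a1 → c2 ≠ c3 →
    ∀ c4 : Fin 3, c4 ≠ a2 → ∀ c5 : Fin 3, c5 ≠ a2 → c4 ≠ c5 →
    ∀ e0 : Fin 3, e0 ≠ c0 → e0 ≠ c5 → ∀ e5 : Fin 3, e5 ≠ e0 → e5 ≠ c5 → e5 ≠ c2 →
    ∀ e2 : Fin 3, e2 ≠ e5 → e2 ≠ c2 → e2 ≠ c1 → ∀ e1 : Fin 3, e1 ≠ e2 → e1 ≠ c1 → e1 ≠ c4 →
    ∀ e4 : Fin 3, e4 ≠ e1 → e4 ≠ c4 → e4 ≠ c3 → ∀ e3 : Fin 3, e3 ≠ e4 → e3 ≠ c3 → e3 ≠ c0 →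
    e3 = e0 := by
  decide +kernel

theorem uncol : ¬ dat.Colourable := by
  rintro ⟨c, e, h1, h2, h3, h4, h5⟩
  have a : ∀ x y : Fin 3, x ≠ y → c (Sum.inl x) ≠ c (Sum.inl y) := fun x y h =>
    h5 _ _ (by simpa using h) rfl
  have b : ∀ l : Fin 6, c (Sum.inr l) ≠ c (Sum.inl (pa l)) := fun l => h4 _ _ rfl
  have d : ∀ l l' : Fin 6, l ≠ l' → pa l = pa l' → c (Sum.inr l) ≠ c (Sum.inr l') := by
    intro l l' h h'
    refine h5 _ _ (by simpa using h) ?_
    simp only [dat, h']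
  have k : ∀ l : Fin 6, e (nx l, false) = e (l, true) := fun l => h1 (l, true)
  have k0 : e (5, false) = e (0, true) := k 0
  have k1 : e (4, false) = e (1, true) := k 1
  have k2 : e (1, false) = e (2, true) := k 2
  have k3 : e (0, false) = e (3, true) := k 3
  have k4 : e (3, false) = e (4, true) := k 4
  have k5 : e (2, false) = e (5, true) := k 5
  have := colAux (c (Sum.inl 0)) (c (Sum.inl 1)) (a 0 1 (by decide)) (c (Sum.inl 2))
    (a 0 2 (by decide)) (a 1 2 (by decide)) (c (Sum.inr 0)) (b 0) (c (Sum.inr 1)) (b 1)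
    (d 0 1 (by decide) rfl) (c (Sum.inr 2)) (b 2) (c (Sum.inr 3)) (b 3) (d 2 3 (by decide) rfl)
    (c (Sum.inr 4)) (b 4) (c (Sum.inr 5)) (b 5) (d 4 5 (by decide) rfl)
    (e (0, true)) (h3 _ _) (by rw [← k0]; exact h3 _ _)
    (e (5, true)) (by rw [← k0]; exact (h2 _).symm) (h3 _ _) (by rw [← k5]; exact h3 _ _)
    (e (2, true)) (by rw [← k5]; exact (h2 _).symm) (h3 _ _) (by rw [← k2]; exact h3 _ _)
    (e (1, true)) (by rw [← k2]; exact (h2 _).symm) (h3 _ _) (by rw [← k1]; exact h3 _ _)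
    (e (4, true)) (by rw [← k1]; exact (h2 _).symm) (h3 _ _) (by rw [← k4]; exact h3 _ _)
    (e (3, true)) (by rw [← k4]; exact (h2 _).symm) (h3 _ _) (by rw [← k3]; exact h3 _ _)
  rw [← k3] at this
  exact h2 0 this

end Pet

end Pool.Agent.U299.RS
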