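import Pool.Agent.U299.RS.Dat

/-! # The block: finite facts -/

set_option autoImplicit false

namespace Pool.Agent.U299.RS

/-- The half-edges of the eight leaves of the block: joined inside the block (`inl`), or one of
the four outer half-edges (`inr (s, t)`: side `s`, number `t`). -/
def tt : Fin 8 → Bool → (Fin 8 × Bool) ⊕ (Bool × Bool)
  | 0, false => Sum.inl (3, false)
  | 0, true => Sum.inr (false, false)
  | 1, false => Sum.inl (2, false)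
  | 1, true => Sum.inl (4, true)
  | 2, false => Sum.inl (1, false)
  | 2, true => Sum.inr (false, true)
  | 3, false => Sum.inl (0, false)
  | 3, true => Sum.inl (6, true)
  | 4, false => Sum.inl (7, false)
  | 4, true => Sum.inl (1, true)
  | 5, false => Sum.inl (6, false)
  | 5, true => Sum.inr (true, false)
  | 6, false => Sum.inl (5, false)
  | 6, true => Sum.inl (3, true)
  | 7, false => Sum.inl (4, false)
  | 7, true => Sum.inr (true, true)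

/-- The leaf with the outer half-edge `(s, t)`. -/
def tj : Bool → Bool → Fin 8
  | false, false => 0
  | false, true => 2
  | true, false => 5
  | true, true => 7

/-- Parents of the inner vertices of the block; `none`: outside. -/
def hp : Fin 7 → Option (Fin 7)
  | 0 => none
  | 1 => some 0
  | 2 => some 0
  | 3 => some 1
  | 4 => some 1
  | 5 => some 2
  | 6 => some 2

/-- Parents of the leaves of the block. -/
def lp : Fin 8 → Fin 7
  | 0 => 3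
  | 1 => 3
  | 2 => 4
  | 3 => 4
  | 4 => 5
  | 5 => 5
  | 6 => 6
  | 7 => 6

theorem tt_inv : ∀ (j : Fin 8) (k : Bool) (j' : Fin 8) (k' : Bool), tt j k = Sum.inl (j', k') →
    tt j' k' = Sum.inl (j, k) ∧ j' ≠ j := by decide

theorem tt_tj : ∀ s t : Bool, tt (tj s t) true = Sum.inr (s, t) := by decide

theorem tt_inr : ∀ (j : Fin 8) (k s t : Bool), tt j k = Sum.inr (s, t) → j = tj s t ∧ k = true := by
  decide

/-- The number of edges inside the block between the two classes of `B`. -/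
def inn (B : Fin 15 → Bool) : ℕ :=
  dd (B 1) (B 0) + dd (B 2) (B 0) + dd (B 3) (B 1) + dd (B 4) (B 1) + dd (B 5) (B 2) +
  dd (B 6) (B 2) + dd (B 7) (B 3) + dd (B 8) (B 3) + dd (B 9) (B 4) + dd (B 10) (B 4) +
  dd (B 11) (B 5) + dd (B 12) (B 5) + dd (B 13) (B 6) + dd (B 14) (B 6) +
  dd (B 7) (B 10) + dd (B 8) (B 9) + dd (B 8) (B 11) + dd (B 10) (B 13) + dd (B 11) (B 14) +
  dd (B 12) (B 13)

/-- The number of outer half-edges of the block (the one at the root included) at vertices with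
value different from `q`. -/
def bd (B : Fin 15 → Bool) (q : Bool) : ℕ :=
  dd (B 0) q + dd (B 7) q + dd (B 9) q + dd (B 12) q + dd (B 14) q

set_option synthInstance.maxSize 100000 in
set_option maxRecDepth 100000 in
theorem aux1 : ∀ b0 b1 b2 : Bool, dd b1 b0 + dd b2 b0 < 2 →
    ∀ b3 b4 : Bool, dd b1 b0 + dd b2 b0 + dd b3 b1 + dd b4 b1 < 2 →
    ∀ b5 b6 : Bool, dd b1 b0 + dd b2 b0 + dd b3 b1 + dd b4 b1 + dd b5 b2 + dd b6 b2 < 2 →
    ∀ b7 b8 : Bool, dd b1 b0 + dd b2 b0 + dd b3 b1 + dd b4 b1 + dd b5 b2 + dd b6 b2 + dd b7 b3 +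
      dd b8 b3 < 2 →
    ∀ b9 b10 : Bool, dd b1 b0 + dd b2 b0 + dd b3 b1 + dd b4 b1 + dd b5 b2 + dd b6 b2 + dd b7 b3 +
      dd b8 b3 + dd b9 b4 + dd b10 b4 + dd b7 b10 + dd b8 b9 < 2 →
    ∀ b11 b12 : Bool, dd b1 b0 + dd b2 b0 + dd b3 b1 + dd b4 b1 + dd b5 b2 + dd b6 b2 + dd b7 b3 +
      dd b8 b3 + dd b9 b4 + dd b10 b4 + dd b7 b10 + dd b8 b9 + dd b11 b5 + dd b12 b5 +
      dd b8 b11 < 2 →
    ∀ b13 b14 : Bool, dd b1 b0 + dd b2 b0 + dd b3 b1 + dd b4 b1 + dd b5 b2 + dd b6 b2 + dd b7 b3 +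
      dd b8 b3 + dd b9 b4 + dd b10 b4 + dd b7 b10 + dd b8 b9 + dd b11 b5 + dd b12 b5 +
      dd b8 b11 + dd b13 b6 + dd b14 b6 + dd b10 b13 + dd b11 b14 + dd b12 b13 < 2 →
    b1 = b0 ∧ b2 = b0 ∧ b3 = b0 ∧ b4 = b0 ∧ b5 = b0 ∧ b6 = b0 ∧ b7 = b0 ∧ b8 = b0 ∧ b9 = b0 ∧
      b10 = b0 ∧ b11 = b0 ∧ b12 = b0 ∧ b13 = b0 ∧ b14 = b0 := by
  decide

set_option synthInstance.maxSize 100000 in
set_option maxRecDepth 100000 in
theorem aux2 : ∀ q b0 b1 b2 : Bool, dd b0 q + dd b1 b0 + dd b2 b0 < 4 →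
    ∀ b3 b4 : Bool, dd b0 q + dd b1 b0 + dd b2 b0 + dd b3 b1 + dd b4 b1 < 4 →
    ∀ b5 b6 : Bool, dd b0 q + dd b1 b0 + dd b2 b0 + dd b3 b1 + dd b4 b1 + dd b5 b2 +
      dd b6 b2 < 4 →
    ∀ b7 b8 : Bool, dd b0 q + dd b1 b0 + dd b2 b0 + dd b3 b1 + dd b4 b1 + dd b5 b2 + dd b6 b2 +
      dd b7 b3 + dd b8 b3 + dd b7 q < 4 →
    ∀ b9 b10 : Bool, dd b0 q + dd b1 b0 + dd b2 b0 + dd b3 b1 + dd b4 b1 + dd b5 b2 + dd b6 b2 +
      dd b7 b3 + dd b8 b3 + dd b7 q + dd b9 b4 + dd b10 b4 + dd b7 b10 + dd b8 b9 + dd b9 q < 4 →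
    ∀ b11 b12 : Bool, dd b0 q + dd b1 b0 + dd b2 b0 + dd b3 b1 + dd b4 b1 + dd b5 b2 + dd b6 b2 +
      dd b7 b3 + dd b8 b3 + dd b7 q + dd b9 b4 + dd b10 b4 + dd b7 b10 + dd b8 b9 + dd b9 q +
      dd b11 b5 + dd b12 b5 + dd b8 b11 + dd b12 q < 4 →
    ∀ b13 b14 : Bool, dd b0 q + dd b1 b0 + dd b2 b0 + dd b3 b1 + dd b4 b1 + dd b5 b2 + dd b6 b2 +
      dd b7 b3 + dd b8 b3 + dd b7 q + dd b9 b4 + dd b10 b4 + dd b7 b10 + dd b8 b9 + dd b9 q +
      dd b11 b5 + dd b12 b5 + dd b8 b11 + dd b12 q + dd b13 b6 + dd b14 b6 + dd b10 b13 +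
      dd b11 b14 + dd b12 b13 + dd b14 q < 4 →
    (∀ p, ![b0, b1, b2, b3, b4, b5, b6, b7, b8, b9, b10, b11, b12, b13, b14] p = q) ∨
    (3 ≤ dd b0 q + dd b1 b0 + dd b2 b0 + dd b3 b1 + dd b4 b1 + dd b5 b2 + dd b6 b2 +
      dd b7 b3 + dd b8 b3 + dd b7 q + dd b9 b4 + dd b10 b4 + dd b7 b10 + dd b8 b9 + dd b9 q +
      dd b11 b5 + dd b12 b5 + dd b8 b11 + dd b12 q + dd b13 b6 + dd b14 b6 + dd b10 b13 +
      dd b11 b14 + dd b12 b13 + dd b14 q ∧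
      ∃ p, ![b0, b1, b2, b3, b4, b5, b6, b7, b8, b9, b10, b11, b12, b13, b14] p = !q ∧
      ∀ p', p' ≠ p → ![b0, b1, b2, b3, b4, b5, b6, b7, b8, b9, b10, b11, b12, b13, b14] p' = q) := by
  decide +kernel

theorem dd_eq_zero {a b : Bool} (h : dd a b = 0) : a = b := by
  revert a b; decide

theorem dd_self (a : Bool) : dd a a = 0 := by
  cases a <;> rfl

theorem dd_comm (a b : Bool) : dd a b = dd b a := by
  cases a <;> cases b <;> rfl

theorem pl {a b n : ℕ} (h : a + b < n) : a < n := lt_of_le_of_lt (Nat.le_add_right a b) h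

theorem pl2 {a b c n : ℕ} (h : a + b + c < n) : a < n := pl (pl h)

/-- A nonconstant block has at least two crossing inner edges. -/
theorem inn_ge (B : Fin 15 → Bool) : (∀ p, B p = B 0) ∨ 2 ≤ inn B := by
  by_cases h : 2 ≤ inn B
  · exact Or.inr h
  · left
    have e : inn B = dd (B 1) (B 0) + dd (B 2) (B 0) + dd (B 3) (B 1) + dd (B 4) (B 1) +
      dd (B 5) (B 2) + dd (B 6) (B 2) + dd (B 7) (B 3) +
      dd (B 8) (B 3) + dd (B 9) (B 4) + dd (B 10) (B 4) + dd (B 7) (B 10) + dd (B 8) (B 9) +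
      dd (B 11) (B 5) + dd (B 12) (B 5) +
      dd (B 8) (B 11) + dd (B 13) (B 6) + dd (B 14) (B 6) + dd (B 10) (B 13) + dd (B 11) (B 14) +
      dd (B 12) (B 13) := by
      unfold inn
      ring
    rw [e, not_le] at h
    have h6 := pl (pl2 (pl2 h))
    have h5 := pl (pl2 h6)
    have h4 := pl2 (pl2 h5)
    have h3 := pl2 h4
    have h2 := pl2 h3
    have h1 := pl2 h2
    obtain ⟨h1, h2, h3, h4, h5, h6, h7, h8, h9, h10, h11, h12, h13, h14⟩ :=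
      aux1 (B 0) (B 1) (B 2) h1 (B 3) (B 4) h2 (B 5) (B 6) h3
      (B 7) (B 8) h4 (B 9) (B 10) h5 (B 11) (B 12) h6 (B 13) (B 14) h
    intro p
    fin_cases p <;> first | rfl | assumption

/-- The boundary of a set of vertices of the block, everything outside having the value `q`. -/
theorem inn_bd (B : Fin 15 → Bool) (q : Bool) : (∀ p, B p = q) ∨ 4 ≤ inn B + bd B q ∨
    (3 ≤ inn B + bd B q ∧ ∃ p, B p = !q ∧ ∀ p', p' ≠ p → B p' = q) := by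
  by_cases h : 4 ≤ inn B + bd B q
  · exact Or.inr (Or.inl h)
  · have e : inn B + bd B q = dd (B 0) q + dd (B 1) (B 0) + dd (B 2) (B 0) + dd (B 3) (B 1) +
      dd (B 4) (B 1) + dd (B 5) (B 2) + dd (B 6) (B 2) +
      dd (B 7) (B 3) + dd (B 8) (B 3) + dd (B 7) q + dd (B 9) (B 4) + dd (B 10) (B 4) +
      dd (B 7) (B 10) + dd (B 8) (B 9) + dd (B 9) q +
      dd (B 11) (B 5) + dd (B 12) (B 5) + dd (B 8) (B 11) + dd (B 12) q + dd (B 13) (B 6) +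
      dd (B 14) (B 6) + dd (B 10) (B 13) +
      dd (B 11) (B 14) + dd (B 12) (B 13) + dd (B 14) q := by
      unfold inn bd
      ring
    have h' := h
    rw [e, not_le] at h
    have h6 := pl2 (pl2 (pl2 h))
    have h5 := pl2 (pl2 h6)
    have h4 := pl (pl2 (pl2 h5))
    have h3 := pl (pl2 h4)
    have h2 := pl2 h3
    have h1 := pl2 h2
    have := aux2 q (B 0) (B 1) (B 2) h1 (B 3) (B 4) h2 (B 5) (B 6) h3
      (B 7) (B 8) h4 (B 9) (B 10) h5 (B 11) (B 12) h6 (B 13) (B 14) h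
    have hs : ∀ p, ![B 0, B 1, B 2, B 3, B 4, B 5, B 6, B 7, B 8, B 9, B 10, B 11, B 12, B 13,
        B 14] p = B p := by
      intro p
      fin_cases p <;> rfl
    simp only [hs] at this
    rcases this with h0 | ⟨h3, h1⟩
    · exact Or.inl h0
    · exact Or.inr (Or.inr ⟨by rw [e]; exact h3, h1⟩)

set_option synthInstance.maxSize 100000 in
set_option maxRecDepth 100000 in
/-- The colourings of the half block. -/
theorem half : ∀ m c1 : Fin 3, m ≠ c1 → ∀ c2 : Fin 3, m ≠ c2 → c1 ≠ c2 →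
    ∀ l0 : Fin 3, c1 ≠ l0 → ∀ l1 : Fin 3, c1 ≠ l1 → l0 ≠ l1 →
    ∀ l2 : Fin 3, c2 ≠ l2 → ∀ l3 : Fin 3, c2 ≠ l3 → l2 ≠ l3 →
    ∀ p : Fin 3, l0 ≠ p → l3 ≠ p → ∀ q : Fin 3, l1 ≠ q → l2 ≠ q →
    ∀ t0 : Fin 3, l0 ≠ t0 → p ≠ t0 → ∀ t1 : Fin 3, l1 ≠ t1 → q ≠ t1 →
    ∀ t2 : Fin 3, l2 ≠ t2 → q ≠ t2 → ∀ t3 : Fin 3, l3 ≠ t3 → p ≠ t3 →
    (t0 = t2 ∧ t1 ≠ t3 ∧ m = -(t1 + t3)) ∨ (t1 = t3 ∧ t0 ≠ t2 ∧ m = -(t0 + t2)) := by
  decide +kernel

end Pool.Agent.U299.RS
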