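import Pool.Agent.U299.RS.Girth

/-! # Colourings and positions after the replacement -/

set_option autoImplicit false

namespace Pool.Agent.U299.RS

open Pool.Agent.N366.RS (width width_pos Node IsChild tree leaf IsSnark IsRotationTSnark)

namespace Dat

variable {J L : Type} {D : Dat J L}

theorem par_old (x : J) : D.phi.par (Sum.inl (Sum.inl x)) = (D.par (Sum.inl x)).map Sum.inl := rfl

theorem par_root (l : L) :
    D.phi.par (Sum.inl (Sum.inr (l, 0))) = (D.par (Sum.inr l)).map Sum.inl := rfl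

/-- The colours of a block. -/
theorem block_col {c : (J ⊕ L × Fin 7) ⊕ (L × Fin 8) → Fin 3} {e : (L × Fin 8) × Bool → Fin 3}
    (h1 : ∀ h, e (D.phi.io h) = e h) (h2 : ∀ l, e (l, false) ≠ e (l, true))
    (h3 : ∀ l s, e (l, s) ≠ c (Sum.inr l))
    (h4 : ∀ v x, D.phi.par v = some x → c v ≠ c (Sum.inl x))
    (h5 : ∀ v w, v ≠ w → D.phi.par v = D.phi.par w → c v ≠ c w) (l : L) :
    -(e ((l, 0), true) + e ((l, 2), true)) ≠ -(e ((l, 5), true) + e ((l, 7), true)) ∧
    -(e ((l, 0), true) + e ((l, 2), true)) ≠ c (Sum.inl (Sum.inr (l, 0))) ∧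
    -(e ((l, 5), true) + e ((l, 7), true)) ≠ c (Sum.inl (Sum.inr (l, 0))) := by
  have p1 : ∀ p q : Fin 7, hp p = some q →
      D.phi.par (Sum.inl (Sum.inr (l, p))) = some (Sum.inr (l, q)) := by
    intro p q h
    simp only [phi, h]
  have a1 : ∀ p q : Fin 7, hp p = some q →
      c (Sum.inl (Sum.inr (l, p))) ≠ c (Sum.inl (Sum.inr (l, q))) :=
    fun p q h => h4 _ _ (p1 p q h)
  have a2 : ∀ j : Fin 8, c (Sum.inr (l, j)) ≠ c (Sum.inl (Sum.inr (l, lp j))) :=
    fun j => h4 _ _ rfl
  have a3 : ∀ p p' q : Fin 7, p ≠ p' → hp p = some q → hp p' = some q →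
      c (Sum.inl (Sum.inr (l, p))) ≠ c (Sum.inl (Sum.inr (l, p'))) := by
    intro p p' q hne h h'
    refine h5 _ _ ?_ ((p1 p q h).trans (p1 p' q h').symm)
    simpa using hne
  have a4 : ∀ j j' : Fin 8, j ≠ j' → lp j = lp j' → c (Sum.inr (l, j)) ≠ c (Sum.inr (l, j')) := by
    intro j j' hne h
    refine h5 _ _ ?_ ?_
    · simpa using hne
    · simp only [phi, h]
  have a5 : ∀ j k j' k', tt j k = Sum.inl (j', k') → e ((l, j'), k') = e ((l, j), k) := by
    intro j k j' k' h
    rw [← h1 ((l, j), k), io_inl h]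
  have m12 := a3 1 2 0 (by decide) rfl rfl
  have m01 := a1 1 0 rfl
  have m02 := a1 2 0 rfl
  have b1 := a5 0 false 3 false rfl
  have b2 := a5 1 false 2 false rfl
  have b3 := a5 4 false 7 false rfl
  have b4 := a5 5 false 6 false rfl
  have b5 := a5 1 true 4 true rfl
  have b6 := a5 3 true 6 true rfl
  have H1 := half (c (Sum.inl (Sum.inr (l, 1)))) (c (Sum.inl (Sum.inr (l, 3)))) (a1 3 1 rfl).symm
    (c (Sum.inl (Sum.inr (l, 4)))) (a1 4 1 rfl).symm (a3 3 4 1 (by decide) rfl rfl)
    (c (Sum.inr (l, 0))) (a2 0).symm (c (Sum.inr (l, 1))) (a2 1).symm (a4 0 1 (by decide) rfl)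
    (c (Sum.inr (l, 2))) (a2 2).symm (c (Sum.inr (l, 3))) (a2 3).symm (a4 2 3 (by decide) rfl)
    (e ((l, 0), false)) (h3 _ _).symm (by rw [← b1]; exact (h3 _ _).symm)
    (e ((l, 1), false)) (h3 _ _).symm (by rw [← b2]; exact (h3 _ _).symm)
    (e ((l, 0), true)) (h3 _ _).symm (h2 _)
    (e ((l, 1), true)) (h3 _ _).symm (h2 _)
    (e ((l, 2), true)) (h3 _ _).symm (by rw [← b2]; exact h2 _)
    (e ((l, 3), true)) (h3 _ _).symm (by rw [← b1]; exact h2 _)
  have H2 := half (c (Sum.inl (Sum.inr (l, 2)))) (c (Sum.inl (Sum.inr (l, 5)))) (a1 5 2 rfl).symm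
    (c (Sum.inl (Sum.inr (l, 6)))) (a1 6 2 rfl).symm (a3 5 6 2 (by decide) rfl rfl)
    (c (Sum.inr (l, 4))) (a2 4).symm (c (Sum.inr (l, 5))) (a2 5).symm (a4 4 5 (by decide) rfl)
    (c (Sum.inr (l, 6))) (a2 6).symm (c (Sum.inr (l, 7))) (a2 7).symm (a4 6 7 (by decide) rfl)
    (e ((l, 4), false)) (h3 _ _).symm (by rw [← b3]; exact (h3 _ _).symm)
    (e ((l, 5), false)) (h3 _ _).symm (by rw [← b4]; exact (h3 _ _).symm)
    (e ((l, 4), true)) (h3 _ _).symm (h2 _)
    (e ((l, 5), true)) (h3 _ _).symm (h2 _)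
    (e ((l, 6), true)) (h3 _ _).symm (by rw [← b4]; exact h2 _)
    (e ((l, 7), true)) (h3 _ _).symm (by rw [← b3]; exact h2 _)
  rw [b5, b6] at H2
  rcases H1 with ⟨c1, c2, c3⟩ | ⟨c1, c2, c3⟩
  · rcases H2 with ⟨d1, d2, d3⟩ | ⟨d1, d2, d3⟩
    · exact absurd d1 c2
    · exact absurd (c3.trans d3.symm) m12
  · rcases H2 with ⟨d1, d2, d3⟩ | ⟨d1, d2, d3⟩
    · rw [← c3, ← d3]
      exact ⟨m12, m01, m02⟩
    · exact absurd c1 d2

theorem phi_colourable (h : D.phi.Colourable) : D.Colourable := by
  obtain ⟨c, e, h1, h2, h3, h4, h5⟩ := h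
  have B := block_col h1 h2 h3 h4 h5
  refine ⟨fun v => match v with
    | Sum.inl x => c (Sum.inl (Sum.inl x))
    | Sum.inr l => c (Sum.inl (Sum.inr (l, 0))),
    fun h => -(e ((h.1, tj h.2 false), true) + e ((h.1, tj h.2 true), true)), ?_, ?_, ?_, ?_, ?_⟩
  · rintro ⟨l, s⟩
    have k : ∀ t, e (((D.io (l, s)).1, tj (D.io (l, s)).2 t), true) = e ((l, tj s t), true) := by
      intro t
      rw [← h1 ((l, tj s t), true), io_tj]
    simp only [k]
  · intro l
    exact (B l).1
  · intro l s
    cases s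
    · exact (B l).2.1
    · exact (B l).2.2
  · intro v x hv
    rcases v with y | l
    · refine h4 (Sum.inl (Sum.inl y)) (Sum.inl x) ?_
      rw [par_old, hv]
      rfl
    · refine h4 (Sum.inl (Sum.inr (l, 0))) (Sum.inl x) ?_
      rw [par_root, hv]
      rfl
  · intro v w hvw h
    rcases v with y | l <;> rcases w with y' | l'
    · refine h5 (Sum.inl (Sum.inl y)) (Sum.inl (Sum.inl y')) (by simpa using hvw) ?_
      rw [par_old, par_old, h]
    · refine h5 (Sum.inl (Sum.inl y)) (Sum.inl (Sum.inr (l', 0))) (by simp) ?_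
      rw [par_old, par_root, h]
    · refine h5 (Sum.inl (Sum.inr (l, 0))) (Sum.inl (Sum.inl y')) (by simp) ?_
      rw [par_old, par_root, h]
    · refine h5 (Sum.inl (Sum.inr (l, 0))) (Sum.inl (Sum.inr (l', 0))) (by simpa using hvw) ?_
      rw [par_root, par_root, h]

/-! ### Positions -/

/-- Depth of the inner vertices in the block. -/
def dp : Fin 7 → ℕ := ![0, 1, 1, 2, 2, 2, 2]

/-- Position of the inner vertices in their level of the block. -/
def rp : Fin 7 → ℕ := ![0, 0, 1, 0, 1, 2, 3]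

/-- The new positions. -/
def pos' (i : ℕ) (pos : J ⊕ L → ℕ × ℕ) : (J ⊕ L × Fin 7) ⊕ (L × Fin 8) → ℕ × ℕ
  | Sum.inl (Sum.inl x) => pos (Sum.inl x)
  | Sum.inl (Sum.inr (l, p)) => (i + dp p, 2 ^ dp p * (pos (Sum.inr l)).2 + rp p)
  | Sum.inr (l, j) => (i + 3, 8 * (pos (Sum.inr l)).2 + j.val)

theorem posO_emb (i : ℕ) (pos : J ⊕ L → ℕ × ℕ) (o : Option J) :
    posO (pos' i pos) (emb o) = posO pos (o.map Sum.inl) := by
  cases o <;> rfl

theorem dp_hp : ∀ p q : Fin 7, hp p = some q → dp p = dp q + 1 ∧ rp q = rp p / 2 := by decide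

theorem dp_le : ∀ p : Fin 7, dp p ≤ 2 ∧ rp p < 2 ^ dp p := by decide

theorem dp_inj : ∀ p q : Fin 7, dp p = dp q → rp p = rp q → p = q := by decide

theorem dp_lp : ∀ j : Fin 8, dp (lp j) = 2 ∧ rp (lp j) = j.val / 2 := by decide

theorem width_add (i : ℕ) (hi : 1 ≤ i) (d : ℕ) : width (i + d) = 2 ^ d * width i := by
  unfold width
  rw [if_neg (by omega), if_neg (by omega), show i + d - 1 = (i - 1) + d by omega, pow_add]
  ring

theorem phi_pos {i : ℕ} {pos : J ⊕ L → ℕ × ℕ} {rot : L → L} (hP : D.Pos i pos rot) (hi : 1 ≤ i) :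
    D.phi.Pos (i + 3) (pos' i pos) (fun h => (rot h.1, h.2)) := by
  have hL : ∀ l, pos (Sum.inr l) = (i, (pos (Sum.inr l)).2) := fun l => Prod.ext (hP.posL l) rfl
  have hw : ∀ l, (pos (Sum.inr l)).2 < width i := fun l => by
    have := hP.lt (Sum.inr l)
    rwa [hP.posL] at this
  refine ⟨?_, ?_, fun _ => rfl, ?_, ?_, ?_, ?_, ?_⟩
  · rintro ((x | ⟨l, p⟩) | ⟨l, j⟩)
    · rw [phi_up_inl, posO_emb]
      exact hP.child (Sum.inl x)
    · rcases hpe : hp p with _ | q
      · have := hp_none p hpe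
        subst this
        rw [phi_up_root, posO_emb]
        have h0 : pos' i pos (Sum.inl (Sum.inr (l, 0))) = pos (Sum.inr l) := by
          rw [hL l]
          simp [pos', dp, rp]
        rw [h0]
        exact hP.child (Sum.inr l)
      · rw [phi_up_inr l hpe]
        obtain ⟨h1, h2⟩ := dp_hp p q hpe
        refine ⟨?_, Or.inr ?_⟩
        · simp only [posO, pos', h1]
          omega
        · simp only [posO, pos', h1, h2, pow_succ]
          have : 2 ^ dp q * 2 * (pos (Sum.inr l)).2 = 2 * (2 ^ dp q * (pos (Sum.inr l)).2) := by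
            ring
          omega
    · rw [phi_up_leaf]
      obtain ⟨h1, h2⟩ := dp_lp j
      refine ⟨?_, Or.inr ?_⟩
      · simp only [posO, pos', h1]
      · simp only [posO, pos', h1, h2]
        omega
  · rintro ((x | ⟨l, p⟩) | ⟨l, j⟩) ((x' | ⟨l', p'⟩) | ⟨l', j'⟩) h
    · have := hP.inj h
      simp only [Sum.inl.injEq] at this
      rw [this]
    · have h1 := congrArg Prod.fst h
      have h2 := hP.posJ x
      simp only [pos'] at h1
      omega
    · have h1 := congrArg Prod.fst h
      have h2 := hP.posJ x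
      simp only [pos'] at h1
      omega
    · have h1 := congrArg Prod.fst h
      have h2 := hP.posJ x'
      simp only [pos'] at h1
      omega
    · have h1 := congrArg Prod.fst h
      have h2 := congrArg Prod.snd h
      simp only [pos'] at h1 h2
      have h3 : dp p = dp p' := by omega
      have h4 := (dp_le p).2
      have h5 := (dp_le p').2
      rw [← h3] at h2 h5
      have h6 : (pos (Sum.inr l)).2 = (pos (Sum.inr l')).2 := by
        have e1 : (2 ^ dp p * (pos (Sum.inr l)).2 + rp p) / 2 ^ dp p = (pos (Sum.inr l)).2 := by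
          rw [Nat.mul_add_div (by positivity), Nat.div_eq_of_lt h4, add_zero]
        have e2 : (2 ^ dp p * (pos (Sum.inr l')).2 + rp p') / 2 ^ dp p =
            (pos (Sum.inr l')).2 := by
          rw [Nat.mul_add_div (by positivity), Nat.div_eq_of_lt h5, add_zero]
        rw [← e1, ← e2, h2]
      have h7 : rp p = rp p' := by
        rw [h6] at h2
        omega
      have h8 : l = l' := by
        have := hP.inj ((hL l).trans ((congrArg (Prod.mk i) h6).trans (hL l').symm))
        simpa using this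
      rw [h8, dp_inj p p' h3 h7]
    · have h1 := congrArg Prod.fst h
      have h2 := (dp_le p).1
      simp only [pos'] at h1
      omega
    · have h1 := congrArg Prod.fst h
      have h2 := hP.posJ x'
      simp only [pos'] at h1
      omega
    · have h1 := congrArg Prod.fst h
      have h2 := (dp_le p').1
      simp only [pos'] at h1
      omega
    · have h2 := congrArg Prod.snd h
      simp only [pos'] at h2
      have h6 : (pos (Sum.inr l)).2 = (pos (Sum.inr l')).2 := by omega
      have h8 : l = l' := by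
        have := hP.inj ((hL l).trans ((congrArg (Prod.mk i) h6).trans (hL l').symm))
        simpa using this
      have h7 : j = j' := Fin.ext (by omega)
      rw [h8, h7]
  · rintro (x | ⟨l, p⟩)
    · have := hP.posJ x
      simp only [pos']
      omega
    · have := (dp_le p).1
      simp only [pos']
      omega
  · rintro ((x | ⟨l, p⟩) | ⟨l, j⟩)
    · exact hP.lt (Sum.inl x)
    · simp only [pos']
      rw [width_add i hi]
      have h1 := (dp_le p).2
      have h2 := hw l
      calc 2 ^ dp p * (pos (Sum.inr l)).2 + rp p < 2 ^ dp p * (pos (Sum.inr l)).2 + 2 ^ dp p := by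
            omega
        _ = 2 ^ dp p * ((pos (Sum.inr l)).2 + 1) := by ring
        _ ≤ 2 ^ dp p * width i := Nat.mul_le_mul_left _ h2
    · simp only [pos']
      rw [width_add i hi]
      have h2 := hw l
      omega
  · intro d c hd1 hd2 hc
    by_cases hdi : d < i
    · obtain ⟨v, hv⟩ := hP.surj d c hd1 hdi.le hc
      rcases v with x | l
      · exact ⟨Sum.inl (Sum.inl x), hv⟩
      · have := hP.posL l
        rw [hv] at this
        simp only at this
        omega
    · obtain ⟨e, rfl⟩ : ∃ e, d = i + e := ⟨d - i, by omega⟩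
      rw [width_add i hi] at hc
      obtain ⟨v, hv⟩ := hP.surj i (c / 2 ^ e) hi le_rfl
        (Nat.div_lt_of_lt_mul hc)
      rcases v with x | l
      · have := hP.posJ x
        rw [hv] at this
        exact absurd this (lt_irrefl _)
      · have hv2 : (pos (Sum.inr l)).2 = c / 2 ^ e := by rw [hv]
        have he : e = 0 ∨ e = 1 ∨ e = 2 ∨ e = 3 := by omega
        rcases he with rfl | rfl | rfl | rfl
        · refine ⟨Sum.inl (Sum.inr (l, 0)), Prod.ext (by simp [pos', dp]) ?_⟩
          simp only [pos', dp, rp, hv2]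
          simp
        · have h1 : c % 2 = 0 ∨ c % 2 = 1 := by omega
          rcases h1 with h1 | h1
          · refine ⟨Sum.inl (Sum.inr (l, 1)), Prod.ext (by simp [pos', dp]) ?_⟩
            simp only [pos', dp, rp, hv2]
            simp
            omega
          · refine ⟨Sum.inl (Sum.inr (l, 2)), Prod.ext (by simp [pos', dp]) ?_⟩
            simp only [pos', dp, rp, hv2]
            simp
            omega
        · have h1 : c % 4 = 0 ∨ c % 4 = 1 ∨ c % 4 = 2 ∨ c % 4 = 3 := by omega
          rcases h1 with h1 | h1 | h1 | h1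
          · refine ⟨Sum.inl (Sum.inr (l, 3)), Prod.ext (by simp [pos', dp]) ?_⟩
            simp only [pos', dp, rp, hv2]
            simp
            omega
          · refine ⟨Sum.inl (Sum.inr (l, 4)), Prod.ext (by simp [pos', dp]) ?_⟩
            simp only [pos', dp, rp, hv2]
            simp
            omega
          · refine ⟨Sum.inl (Sum.inr (l, 5)), Prod.ext (by simp [pos', dp]) ?_⟩
            simp only [pos', dp, rp, hv2]
            simp
            omega
          · refine ⟨Sum.inl (Sum.inr (l, 6)), Prod.ext (by simp [pos', dp]) ?_⟩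
            simp only [pos', dp, rp, hv2]
            simp
            omega
        · refine ⟨Sum.inr (l, ⟨c % 8, by omega⟩), Prod.ext rfl ?_⟩
          simp only [pos', hv2]
          omega
  · rintro ⟨l, j⟩
    simp only [pos']
    rw [hP.rot_pos, width_add i hi]
    obtain ⟨u, hu⟩ : ∃ u, width i = 3 * u := ⟨2 ^ (i - 1), by
      unfold width; rw [if_neg (by omega)]⟩
    have h1 := hw l
    rw [hu] at h1 ⊢
    have h2 : 3 * u / 3 = u := by omega
    have h3 : 2 ^ 3 * (3 * u) / 3 = 8 * u := by omega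
    rw [h2, h3]
    by_cases h4 : (pos (Sum.inr l)).2 + u < 3 * u
    · rw [Nat.mod_eq_of_lt h4, Nat.mod_eq_of_lt (by omega)]
      ring
    · have h5 : ((pos (Sum.inr l)).2 + u) % (3 * u) = (pos (Sum.inr l)).2 + u - 3 * u := by
        rw [Nat.mod_eq_sub_mod (by omega), Nat.mod_eq_of_lt (by omega)]
      rw [h5, Nat.mod_eq_sub_mod (by omega), Nat.mod_eq_of_lt (by omega)]
      omega
  · rintro ⟨l, j⟩ k
    rcases io_cases (D := D) l j k with ⟨j', k', h1, h2, h3⟩ | ⟨s, t, h1, h2, h3, h4⟩
    · rw [h3]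
      simp only
      rw [io_inl h1]
    · rw [h4]
      simp only
      rw [io_inr h1, hP.rot_io]

end Dat

end Pool.Agent.U299.RS
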