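import Pool.Agent.U299.RS.Phi

/-! # Cuts after the replacement -/

set_option autoImplicit false

namespace Pool.Agent.U299.RS

open Pool.Agent.N366.RS (width width_pos Node IsChild tree leaf IsSnark IsRotationTSnark)

theorem gg_add (a b : Bool) : gg a b + gg b a = dd a b := by
  cases a <;> cases b <;> rfl

namespace Dat

variable {J L : Type} {D : Dat J L}

theorem block_sum (S : Vx (J ⊕ L × Fin 7) (L × Fin 8) → Bool) (l : L) :
    ∑ p : Fin 7, dd (S (some (Sum.inl (Sum.inr (l, p))))) (S (D.phi.up (Sum.inl (Sum.inr (l, p))))) +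
    ∑ j : Fin 8, dd (S (some (Sum.inr (l, j)))) (S (D.phi.up (Sum.inr (l, j)))) +
    ∑ j : Fin 8, ∑ k : Bool, gg (S (some (Sum.inr (l, j))))
      (S (some (Sum.inr (D.phi.io ((l, j), k)).1))) =
    dd (S (blk l 0)) (S (emb (D.par (Sum.inr l)))) + inn (fun p => S (blk l p)) +
    ∑ s : Bool, ∑ t : Bool, gg (S (some (Sum.inr (l, tj s t))))
      (S (some (Sum.inr ((D.io (l, s)).1, tj (D.io (l, s)).2 t)))) := by
  have b0 : blk (J := J) l 0 = some (Sum.inl (Sum.inr (l, 0))) := rfl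
  have b1 : blk (J := J) l 1 = some (Sum.inl (Sum.inr (l, 1))) := rfl
  have b2 : blk (J := J) l 2 = some (Sum.inl (Sum.inr (l, 2))) := rfl
  have b3 : blk (J := J) l 3 = some (Sum.inl (Sum.inr (l, 3))) := rfl
  have b4 : blk (J := J) l 4 = some (Sum.inl (Sum.inr (l, 4))) := rfl
  have b5 : blk (J := J) l 5 = some (Sum.inl (Sum.inr (l, 5))) := rfl
  have b6 : blk (J := J) l 6 = some (Sum.inl (Sum.inr (l, 6))) := rfl
  have b7 : blk (J := J) l 7 = some (Sum.inr (l, 0)) := rfl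
  have b8 : blk (J := J) l 8 = some (Sum.inr (l, 1)) := rfl
  have b9 : blk (J := J) l 9 = some (Sum.inr (l, 2)) := rfl
  have b10 : blk (J := J) l 10 = some (Sum.inr (l, 3)) := rfl
  have b11 : blk (J := J) l 11 = some (Sum.inr (l, 4)) := rfl
  have b12 : blk (J := J) l 12 = some (Sum.inr (l, 5)) := rfl
  have b13 : blk (J := J) l 13 = some (Sum.inr (l, 6)) := rfl
  have b14 : blk (J := J) l 14 = some (Sum.inr (l, 7)) := rfl
  unfold inn
  rw [← gg_add (S (blk l 7)) (S (blk l 10)), ← gg_add (S (blk l 8)) (S (blk l 9)),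
    ← gg_add (S (blk l 8)) (S (blk l 11)), ← gg_add (S (blk l 10)) (S (blk l 13)),
    ← gg_add (S (blk l 11)) (S (blk l 14)), ← gg_add (S (blk l 12)) (S (blk l 13))]
  rw [Fin.sum_univ_seven, Fin.sum_univ_eight, Fin.sum_univ_eight]
  simp only [Fintype.sum_bool]
  rw [phi_up_root, phi_up_inr l (p := 1) (q := 0) rfl, phi_up_inr l (p := 2) (q := 0) rfl,
    phi_up_inr l (p := 3) (q := 1) rfl, phi_up_inr l (p := 4) (q := 1) rfl,
    phi_up_inr l (p := 5) (q := 2) rfl, phi_up_inr l (p := 6) (q := 2) rfl]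
  have e : ∀ j k j' k', tt j k = Sum.inl (j', k') → (D.phi.io ((l, j), k)).1 = (l, j') :=
    fun j k j' k' h => by rw [io_inl h]
  have e' : ∀ j k s t, tt j k = Sum.inr (s, t) →
      (D.phi.io ((l, j), k)).1 = ((D.io (l, s)).1, tj (D.io (l, s)).2 t) :=
    fun j k s t h => by rw [io_inr h]
  have t1 : tj false false = 0 := rfl
  have t2 : tj false true = 2 := rfl
  have t3 : tj true false = 5 := rfl
  have t4 : tj true true = 7 := rfl
  have l0 : lp 0 = 3 := rfl
  have l1 : lp 1 = 3 := rfl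
  have l2 : lp 2 = 4 := rfl
  have l3 : lp 3 = 4 := rfl
  have l4 : lp 4 = 5 := rfl
  have l5 : lp 5 = 5 := rfl
  have l6 : lp 6 = 6 := rfl
  have l7 : lp 7 = 6 := rfl
  simp only [phi_up_leaf, l0, l1, l2, l3, l4, l5, l6, l7, e 0 false _ _ rfl, e' 0 true _ _ rfl,
    e 1 false _ _ rfl, e 1 true _ _ rfl,
    e 2 false _ _ rfl, e' 2 true _ _ rfl, e 3 false _ _ rfl, e 3 true _ _ rfl, e 4 false _ _ rfl,
    e 4 true _ _ rfl, e 5 false _ _ rfl, e' 5 true _ _ rfl, e 6 false _ _ rfl, e 6 true _ _ rfl,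
    e 7 false _ _ rfl, e' 7 true _ _ rfl, t1, t2, t3, t4,
    b0, b1, b2, b3, b4, b5, b6, b7, b8, b9, b10, b11, b12, b13, b14]
  ring

theorem phi_cut [Fintype J] [Fintype L] (S : Vx (J ⊕ L × Fin 7) (L × Fin 8) → Bool) :
    D.phi.cut S = ∑ x : J, dd (S (some (Sum.inl (Sum.inl x)))) (S (emb (D.par (Sum.inl x)))) +
      ∑ l : L, dd (S (blk l 0)) (S (emb (D.par (Sum.inr l)))) +
      ∑ l : L, inn (fun p => S (blk l p)) +
      ∑ h : L × Bool, ∑ t : Bool, gg (S (some (Sum.inr (h.1, tj h.2 t))))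
        (S (some (Sum.inr ((D.io h).1, tj (D.io h).2 t)))) := by
  unfold cut
  rw [Fintype.sum_sum_type, Fintype.sum_sum_type, Fintype.sum_prod_type, Fintype.sum_prod_type,
    Fintype.sum_prod_type, Fintype.sum_prod_type, Fintype.sum_prod_type]
  have h1 : ∑ x : J, dd (S (some (Sum.inl (Sum.inl x)))) (S (D.phi.up (Sum.inl (Sum.inl x)))) =
      ∑ x : J, dd (S (some (Sum.inl (Sum.inl x)))) (S (emb (D.par (Sum.inl x)))) :=
    Finset.sum_congr rfl fun x _ => by rw [phi_up_inl]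
  rw [h1, add_assoc, add_assoc, ← Finset.sum_add_distrib, add_assoc (Finset.sum _ _),
    add_assoc (Finset.sum _ _), add_assoc (Finset.sum _ _)]
  congr 1
  rw [← Finset.sum_add_distrib, ← Finset.sum_add_distrib, ← Finset.sum_add_distrib]
  refine Finset.sum_congr rfl fun l _ => ?_
  have := block_sum (D := D) S l
  simp only at this ⊢
  omega

end Dat

end Pool.Agent.U299.RS
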