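import Mathlib
import Pool.Agent.N366.RS.Stm

/-!
# Trees with paired leaf half-edges

A cubic graph with a spanning tree `T_i` is described by the parent map of the tree (rooted at its
centre) and by an involution on the half-edges at the leaves.
-/

set_option autoImplicit false

namespace Pool.Agent.U299.RS

open Pool.Agent.N366.RS (width width_pos Node IsChild tree leaf IsSnark IsRotationTSnark)

/-- A tree with leaves `L` and inner vertices `none` (the centre) and `J`, given by the parent map
`par`, and a map `io` on the half-edges at the leaves (every leaf has two of them). -/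
structure Dat (J L : Type) where
  par : J ⊕ L → Option J
  io : L × Bool → L × Bool

/-- The vertices: `none` is the centre. -/
abbrev Vx (J L : Type) : Type := Option (J ⊕ L)

/-- Indicator of `a ≠ b`. -/
def dd (a b : Bool) : ℕ := (xor a b).toNat

/-- Indicator of `a = true`, `b = false`. -/
def gg (a b : Bool) : ℕ := (a && !b).toNat

/-- Positions in the plane drawing of the tree; the centre gets `(0, 0)`. -/
def posO {J L : Type} (pos : J ⊕ L → ℕ × ℕ) : Vx J L → ℕ × ℕ
  | none => (0, 0)
  | some v => pos v

namespace Dat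

variable {J L : Type} (D : Dat J L)

/-- The parent of `v` as a vertex. -/
def up (v : J ⊕ L) : Vx J L := (D.par v).map Sum.inl

/-- Adjacency: tree edges and joined half-edges. -/
def adj (x y : Vx J L) : Prop :=
  (∃ v, x = some v ∧ y = D.up v) ∨ (∃ v, y = some v ∧ x = D.up v) ∨
    ∃ l s, x = some (Sum.inr l) ∧ y = some (Sum.inr (D.io (l, s)).1)

/-- The graph of `D`. -/
def gr : SimpleGraph (Vx J L) := SimpleGraph.fromRel D.adj

/-- `io` is an involution without loops and without double edges. -/
structure Basic : Prop where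
  inv : ∀ h, D.io (D.io h) = h
  ne : ∀ h, (D.io h).1 ≠ h.1
  simple : ∀ l, (D.io (l, false)).1 ≠ (D.io (l, true)).1

/-- The tree is `T_i`, with positions `pos`, and `rot` is the rotation by one third. -/
structure Pos (i : ℕ) (pos : J ⊕ L → ℕ × ℕ) (rot : L → L) : Prop where
  child : ∀ v, IsChild (posO pos (D.up v)) (pos v)
  inj : Function.Injective pos
  posL : ∀ l, (pos (Sum.inr l)).1 = i
  posJ : ∀ x, (pos (Sum.inl x)).1 < i
  lt : ∀ v, (pos v).2 < width (pos v).1
  surj : ∀ d c, 1 ≤ d → d ≤ i → c < width d → ∃ v, pos v = (d, c)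
  rot_pos : ∀ l, (pos (Sum.inr (rot l))).2 = ((pos (Sum.inr l)).2 + width i / 3) % width i
  rot_io : ∀ l s, D.io (rot l, s) = (rot (D.io (l, s)).1, (D.io (l, s)).2)

/-- Number of edges between `S` and its complement. -/
def cut [Fintype J] [Fintype L] (S : Vx J L → Bool) : ℕ :=
  ∑ v : J ⊕ L, dd (S (some v)) (S (D.up v)) +
    ∑ h : L × Bool, gg (S (some (Sum.inr h.1))) (S (some (Sum.inr (D.io h).1)))

/-- Every set of vertices has at least four boundary edges, unless it or its complement is empty
or (then at least three) a single vertex. -/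
def CutGood [Fintype J] [Fintype L] : Prop := ∀ S : Vx J L → Bool,
  4 ≤ D.cut S ∨ (∃ q, ∀ x, S x = q) ∨ (3 ≤ D.cut S ∧ ∃ x q, S x = !q ∧ ∀ y, y ≠ x → S y = q)

/-- No triangles. -/
def TriFree : Prop := ∀ x y z, D.adj x y → D.adj y z → D.adj z x → False

/-- No 4-cycles. -/
def QuadFree : Prop := ∀ x y z w, D.adj x y → D.adj y z → D.adj z w → D.adj w x → x ≠ z → y ≠ w →
  False

/-- A proper 3-edge-colouring: `c v` is the colour of the edge from `v` to its parent, `e h` the
colour of the edge containing the half-edge `h`. -/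
def Colourable : Prop := ∃ (c : J ⊕ L → Fin 3) (e : L × Bool → Fin 3),
  (∀ h, e (D.io h) = e h) ∧ (∀ l, e (l, false) ≠ e (l, true)) ∧ (∀ l s, e (l, s) ≠ c (Sum.inr l)) ∧
  (∀ v x, D.par v = some x → c v ≠ c (Sum.inl x)) ∧ (∀ v w, v ≠ w → D.par v = D.par w → c v ≠ c w)

variable {D} {i : ℕ} {pos : J ⊕ L → ℕ × ℕ} {rot : L → L}

theorem up_eq_some {v : J ⊕ L} {x : J} : D.up v = some (Sum.inl x) ↔ D.par v = some x := by
  unfold up
  cases h : D.par v <;> simp

theorem up_eq_none {v : J ⊕ L} : D.up v = none ↔ D.par v = none := by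
  unfold up
  cases h : D.par v <;> simp

theorem up_ne_leaf (v : J ⊕ L) (l : L) : D.up v ≠ some (Sum.inr l) := by
  unfold up
  cases h : D.par v <;> simp

theorem Basic.adj_symm (hB : D.Basic) {x y : Vx J L} (h : D.adj x y) : D.adj y x := by
  rcases h with ⟨v, h1, h2⟩ | ⟨v, h1, h2⟩ | ⟨l, s, h1, h2⟩
  · exact Or.inr (Or.inl ⟨v, h1, h2⟩)
  · exact Or.inl ⟨v, h1, h2⟩
  · refine Or.inr (Or.inr ⟨(D.io (l, s)).1, (D.io (l, s)).2, h2, ?_⟩)
    rw [Prod.mk.eta, hB.inv, h1]

namespace Pos

variable (hP : D.Pos i pos rot)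
include hP

theorem depth (v : J ⊕ L) : (pos v).1 = (posO pos (D.up v)).1 + 1 := (hP.child v).1

theorem one_le (v : J ⊕ L) : 1 ≤ (pos v).1 := by rw [hP.depth v]; omega

theorem le (v : J ⊕ L) : (pos v).1 ≤ i := by
  cases v with
  | inl x => exact (hP.posJ x).le
  | inr l => exact (hP.posL l).le

theorem up_ne (v : J ⊕ L) : D.up v ≠ some v := by
  intro h
  have := hP.depth v
  rw [h] at this
  simp only [posO] at this
  omega

theorem no2 {v w : J ⊕ L} (h : D.up v = some w) : D.up w ≠ some v := by
  intro h'
  have h1 := hP.depth v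
  have h2 := hP.depth w
  rw [h] at h1
  rw [h'] at h2
  simp only [posO] at h1 h2
  omega

theorem posO_inj : Function.Injective (posO pos) := by
  intro x y h
  cases x with
  | none =>
    cases y with
    | none => rfl
    | some w =>
      have := hP.one_le w
      simp only [posO] at h
      rw [← h] at this
      simp at this
  | some v =>
    cases y with
    | none =>
      have := hP.one_le v
      simp only [posO] at h
      rw [h] at this
      simp at this
    | some w => rw [hP.inj h]

theorem posO_lt (x : Vx J L) : (posO pos x).2 < width (posO pos x).1 := by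
  cases x with
  | none => simp [posO, width]
  | some v => exact hP.lt v

theorem up_of_child {x : Vx J L} {v : J ⊕ L} (h : IsChild (posO pos x) (pos v)) : D.up v = x := by
  have h' := hP.child v
  apply hP.posO_inj
  have h1 := hP.posO_lt x
  have h2 := hP.posO_lt (D.up v)
  have e1 : (posO pos (D.up v)).1 = (posO pos x).1 := by
    have := h.1
    have := h'.1
    omega
  refine Prod.ext e1 ?_
  by_cases h0 : (posO pos x).1 = 0
  · rw [e1] at h2
    rw [h0] at h1 h2
    simp only [width, if_true] at h1 h2
    omega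
  · rcases h.2 with h3 | h3
    · exact absurd h3 h0
    rcases h'.2 with h4 | h4
    · rw [e1] at h4
      exact absurd h4 h0
    rw [h3, h4]

theorem adj_irrefl (hB : D.Basic) (x : Vx J L) : ¬ D.adj x x := by
  rintro (⟨v, h1, h2⟩ | ⟨v, h1, h2⟩ | ⟨l, s, h1, h2⟩)
  · exact hP.up_ne v (h2 ▸ h1)
  · exact hP.up_ne v (h2 ▸ h1)
  · rw [h1] at h2
    simp only [Option.some.injEq, Sum.inr.injEq] at h2
    exact hB.ne (l, s) h2.symm

theorem gr_adj (hB : D.Basic) {x y : Vx J L} : D.gr.Adj x y ↔ D.adj x y := by
  unfold gr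
  rw [SimpleGraph.fromRel_adj]
  constructor
  · rintro ⟨_, h | h⟩
    · exact h
    · exact hB.adj_symm h
  · intro h
    refine ⟨?_, Or.inl h⟩
    rintro rfl
    exact hP.adj_irrefl hB x h

end Pos

end Dat

end Pool.Agent.U299.RS
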