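import Pool.Agent.U299.RS.Good

/-! # Girth after the replacement -/

set_option autoImplicit false

namespace Pool.Agent.U299.RS

open Pool.Agent.N366.RS (width width_pos Node IsChild tree leaf IsSnark IsRotationTSnark)

/-- Edges of the block. -/
def bl : List (Fin 15 × Fin 15) :=
  [(0, 1), (0, 2), (1, 3), (1, 4), (2, 5), (2, 6), (3, 7), (3, 8), (4, 9), (4, 10), (5, 11),
    (5, 12), (6, 13), (6, 14), (7, 10), (8, 9), (8, 11), (10, 13), (11, 14), (12, 13)]

/-- Adjacency in the block. -/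
def badj (p q : Fin 15) : Bool := decide ((p, q) ∈ bl) || decide ((q, p) ∈ bl)

/-- The vertex of the block with the outer half-edge `(s, t)`. -/
def tb (s t : Bool) : Fin 15 := ⟨(tj s t).val + 7, by omega⟩

theorem badj_irrefl : ∀ p, badj p p = false := by decide +kernel

theorem badj_symm : ∀ p q, badj p q = badj q p := by decide +kernel

theorem badj_tri : ∀ p q, badj p q = true → ∀ r, badj q r = true → badj r p = false := by
  decide +kernel

theorem badj_quad : ∀ p q, badj p q = true → ∀ r, badj q r = true → p ≠ r →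
    ∀ s, badj r s = true → q ≠ s → badj s p = false := by
  decide +kernel

theorem badj_tb : ∀ s t t', badj (tb s t) (tb s t') = false := by decide +kernel

theorem tb_inj : ∀ s t s' t', tb s t = tb s' t' → s = s' ∧ t = t' := by decide

theorem badj_hp : ∀ p q : Fin 7, hp p = some q → badj ⟨p.val, by omega⟩ ⟨q.val, by omega⟩ = true := by
  decide +kernel

theorem badj_lp : ∀ j : Fin 8, badj ⟨j.val + 7, by omega⟩ ⟨(lp j).val, by omega⟩ = true := by
  decide +kernel

theorem badj_tt : ∀ (j : Fin 8) (k : Bool) (j' : Fin 8) (k' : Bool), tt j k = Sum.inl (j', k') →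
    badj ⟨j.val + 7, by omega⟩ ⟨j'.val + 7, by omega⟩ = true := by
  decide +kernel

theorem hp_none : ∀ p : Fin 7, hp p = none → p = 0 := by decide

namespace Dat

variable {J L : Type} {D : Dat J L}

theorem blk_lt (l : L) (p : Fin 7) :
    blk (J := J) l ⟨p.val, by omega⟩ = some (Sum.inl (Sum.inr (l, p))) := by
  unfold blk
  simp

theorem blk_ge (l : L) (j : Fin 8) :
    blk (J := J) l ⟨j.val + 7, by omega⟩ = some (Sum.inr (l, j)) := by
  unfold blk
  simp

theorem blk_tb (l : L) (s t : Bool) : blk (J := J) l (tb s t) = some (Sum.inr (l, tj s t)) :=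
  blk_ge l _

/-- The kinds of adjacent pairs. -/
theorem adj_cases {x y : Vx (J ⊕ L × Fin 7) (L × Fin 8)} (h : D.phi.adj x y) :
    (∃ l p q, x = blk l p ∧ y = blk l q ∧ badj p q = true) ∨
    (∃ v : J, x = emb (some v) ∧ y = emb (D.par (Sum.inl v))) ∨
    (∃ v : J, y = emb (some v) ∧ x = emb (D.par (Sum.inl v))) ∨
    (∃ l, x = blk l 0 ∧ y = emb (D.par (Sum.inr l))) ∨
    (∃ l, y = blk l 0 ∧ x = emb (D.par (Sum.inr l))) ∨
    (∃ l s t, x = blk l (tb s t) ∧ y = blk (D.io (l, s)).1 (tb (D.io (l, s)).2 t)) := by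
  rcases h with ⟨v, h1, h2⟩ | ⟨v, h1, h2⟩ | ⟨⟨l, j⟩, k, h1, h2⟩
  · rcases v with (v | ⟨l, p⟩) | ⟨l, j⟩
    · rw [phi_up_inl] at h2
      exact Or.inr (Or.inl ⟨v, h1, h2⟩)
    · rcases hpe : hp p with _ | q
      · have := hp_none p hpe
        subst this
        rw [phi_up_root] at h2
        exact Or.inr (Or.inr (Or.inr (Or.inl ⟨l, h1, h2⟩)))
      · rw [phi_up_inr l hpe] at h2
        exact Or.inl ⟨l, _, _, h1.trans (blk_lt l p).symm, h2.trans (blk_lt l q).symm,
          badj_hp p q hpe⟩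
    · rw [phi_up_leaf] at h2
      exact Or.inl ⟨l, _, _, h1.trans (blk_ge l j).symm, h2.trans (blk_lt l _).symm, badj_lp j⟩
  · rcases v with (v | ⟨l, p⟩) | ⟨l, j⟩
    · rw [phi_up_inl] at h2
      exact Or.inr (Or.inr (Or.inl ⟨v, h1, h2⟩))
    · rcases hpe : hp p with _ | q
      · have := hp_none p hpe
        subst this
        rw [phi_up_root] at h2
        exact Or.inr (Or.inr (Or.inr (Or.inr (Or.inl ⟨l, h1, h2⟩))))
      · rw [phi_up_inr l hpe] at h2
        refine Or.inl ⟨l, _, _, h2.trans (blk_lt l q).symm, h1.trans (blk_lt l p).symm, ?_⟩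
        rw [badj_symm]
        exact badj_hp p q hpe
    · rw [phi_up_leaf] at h2
      refine Or.inl ⟨l, _, _, h2.trans (blk_lt l _).symm, h1.trans (blk_ge l j).symm, ?_⟩
      rw [badj_symm]
      exact badj_lp j
  · rcases io_cases (D := D) l j k with ⟨j', k', e1, e2, e3⟩ | ⟨s, t, e1, e2, e3, e4⟩
    · rw [e3] at h2
      exact Or.inl ⟨l, _, _, h1.trans (blk_ge l j).symm, h2.trans (blk_ge l j').symm,
        badj_tt j k j' k' e1⟩
    · rw [e4] at h2
      subst e2
      exact Or.inr (Or.inr (Or.inr (Or.inr (Or.inr ⟨l, s, t, h1.trans (blk_tb l s t).symm,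
        h2.trans (blk_tb _ _ t).symm⟩))))

variable {i : ℕ} {pos : J ⊕ L → ℕ × ℕ} {rot : L → L}

/-- Adjacent vertices with the same projection lie in a block. -/
theorem adj_same (hP : D.Pos i pos rot) (hB : D.Basic) {x y : Vx (J ⊕ L × Fin 7) (L × Fin 8)}
    (h : D.phi.adj x y) (he : prj x = prj y) :
    ∃ l p q, x = blk l p ∧ y = blk l q ∧ badj p q = true := by
  rcases adj_cases h with h | ⟨v, rfl, rfl⟩ | ⟨v, rfl, rfl⟩ | ⟨l, rfl, rfl⟩ | ⟨l, rfl, rfl⟩ |
    ⟨l, s, t, rfl, rfl⟩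
  · exact h
  · rw [prj_emb, prj_emb] at he
    exact absurd he.symm (hP.up_ne (Sum.inl v))
  · rw [prj_emb, prj_emb] at he
    exact absurd he (hP.up_ne (Sum.inl v))
  · rw [prj_emb, prj_blk] at he
    exact absurd he.symm (up_ne_leaf (D := D) (Sum.inr l) l)
  · rw [prj_emb, prj_blk] at he
    exact absurd he (up_ne_leaf (D := D) (Sum.inr l) l)
  · rw [prj_blk, prj_blk] at he
    simp only [Option.some.injEq, Sum.inr.injEq] at he
    exact absurd he.symm (hB.ne (l, s))

theorem adj_prj {x y : Vx (J ⊕ L × Fin 7) (L × Fin 8)}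
    (h : D.phi.adj x y) (he : prj x ≠ prj y) : D.adj (prj x) (prj y) := by
  rcases adj_cases h with ⟨l, p, q, rfl, rfl, _⟩ | ⟨v, rfl, rfl⟩ | ⟨v, rfl, rfl⟩ | ⟨l, rfl, rfl⟩ |
    ⟨l, rfl, rfl⟩ | ⟨l, s, t, rfl, rfl⟩
  · rw [prj_blk, prj_blk] at he
    exact absurd rfl he
  · rw [prj_emb, prj_emb]
    exact Or.inl ⟨Sum.inl v, rfl, rfl⟩
  · rw [prj_emb, prj_emb]
    exact Or.inr (Or.inl ⟨Sum.inl v, rfl, rfl⟩)
  · rw [prj_emb, prj_blk]
    exact Or.inl ⟨Sum.inr l, rfl, rfl⟩
  · rw [prj_emb, prj_blk]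
    exact Or.inr (Or.inl ⟨Sum.inr l, rfl, rfl⟩)
  · rw [prj_blk, prj_blk]
    exact Or.inr (Or.inr ⟨l, s, rfl, rfl⟩)

theorem emb_of_prj {y y' : Vx (J ⊕ L × Fin 7) (L × Fin 8)} {o : Option J} (hy : y = emb o)
    (h : prj y = prj y') : y' = y := by
  subst hy
  rcases vx_cases y' with ⟨o', rfl⟩ | ⟨l, p, rfl⟩
  · rw [prj_emb, prj_emb] at h
    cases o <;> cases o' <;> simp at h ⊢
    rw [h]
  · rw [prj_emb, prj_blk] at h
    cases o <;> simp at h

/-- A vertex has at most one neighbour with a given other projection. -/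
theorem adj_unique {x y y' : Vx (J ⊕ L × Fin 7) (L × Fin 8)}
    (h : D.phi.adj x y) (h' : D.phi.adj x y') (he : prj y = prj y') (hne : prj x ≠ prj y) :
    y = y' := by
  rcases vx_cases y with ⟨o, ho⟩ | ⟨l, p, hy⟩
  · exact (emb_of_prj ho he).symm
  · rcases vx_cases y' with ⟨o, ho⟩ | ⟨l', p', hy'⟩
    · exact emb_of_prj ho he.symm
    · have key : ∀ (z : Vx (J ⊕ L × Fin 7) (L × Fin 8)) (m : L) (r : Fin 15), z = blk m r →
          D.phi.adj x z → prj x ≠ prj z → (∃ o, x = emb o ∧ z = blk m 0) ∨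
          (∃ l s t, x = blk l (tb s t) ∧ z = blk (D.io (l, s)).1 (tb (D.io (l, s)).2 t)) := by
        intro z m r hz hxz hn
        rcases adj_cases hxz with ⟨l, p, q, h1, h2, _⟩ | ⟨v, h1, h2⟩ | ⟨v, h1, h2⟩ |
          ⟨l, h1, h2⟩ | ⟨l, h1, h2⟩ | ⟨l, s, t, h1, h2⟩
        · rw [h1, h2, prj_blk, prj_blk] at hn
          exact absurd rfl hn
        · exact absurd (h2.symm.trans hz) (emb_ne_blk _ _ _)
        · exact absurd (h1.symm.trans hz) (emb_ne_blk _ _ _)
        · exact absurd (h2.symm.trans hz) (emb_ne_blk _ _ _)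
        · left
          refine ⟨_, h2, ?_⟩
          have := blk_inj (h1.symm.trans hz)
          rw [h1, this.1]
        · exact Or.inr ⟨l, s, t, h1, h2⟩
      have hm : l = l' := by
        rw [hy, hy', prj_blk, prj_blk] at he
        simpa using he
      rcases key y l p hy h hne with ⟨o, a1, a2⟩ | ⟨m, s, t, a1, a2⟩
      · rcases key y' l' p' hy' h' (he ▸ hne) with ⟨o', b1, b2⟩ | ⟨m', s', t', b1, b2⟩
        · rw [a2, b2, hm]
        · exact absurd (a1.symm.trans b1) (emb_ne_blk _ _ _)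
      · rcases key y' l' p' hy' h' (he ▸ hne) with ⟨o', b1, b2⟩ | ⟨m', s', t', b1, b2⟩
        · exact absurd (b1.symm.trans a1) (emb_ne_blk _ _ _)
        · obtain ⟨c1, c2⟩ := blk_inj (a1.symm.trans b1)
          obtain ⟨c3, c4⟩ := tb_inj _ _ _ _ c2
          rw [a2, b2, c1, c3, c4]

/-- Two adjacent vertices with the same projection do not both have neighbours with the same
other projection. -/
theorem adj_pair (hP : D.Pos i pos rot) (hB : D.Basic)
    {x x' y y' : Vx (J ⊕ L × Fin 7) (L × Fin 8)}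
    (h : D.phi.adj x y) (h' : D.phi.adj x' y') (hxx : D.phi.adj x x') (hx : prj x = prj x')
    (hy : prj y = prj y') (hne : prj x ≠ prj y) : False := by
  obtain ⟨l, p, q, e1, e2, e3⟩ := adj_same hP hB hxx hx
  have key : ∀ (z w : Vx (J ⊕ L × Fin 7) (L × Fin 8)) (r : Fin 15), z = blk l r →
      D.phi.adj z w → prj z ≠ prj w → (r = 0 ∧ w = emb (D.par (Sum.inr l))) ∨
      (∃ s t, r = tb s t ∧ w = blk (D.io (l, s)).1 (tb (D.io (l, s)).2 t)) := by
    intro z w r hz hzw hn
    rcases adj_cases hzw with ⟨l', p, q, h1, h2, _⟩ | ⟨v, h1, h2⟩ | ⟨v, h1, h2⟩ |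
      ⟨l', h1, h2⟩ | ⟨l', h1, h2⟩ | ⟨l', s, t, h1, h2⟩
    · rw [h1, h2, prj_blk, prj_blk] at hn
      exact absurd rfl hn
    · exact absurd (h1.symm.trans hz) (emb_ne_blk _ _ _)
    · exact absurd (h2.symm.trans hz) (emb_ne_blk _ _ _)
    · obtain ⟨c1, c2⟩ := blk_inj (h1.symm.trans hz)
      subst c1
      exact Or.inl ⟨c2.symm, h2⟩
    · exact absurd (h2.symm.trans hz) (emb_ne_blk _ _ _)
    · obtain ⟨c1, c2⟩ := blk_inj (h1.symm.trans hz)
      subst c1
      exact Or.inr ⟨s, t, c2.symm, h2⟩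
  rcases key x y p e1 h hne with ⟨a1, a2⟩ | ⟨s, t, a1, a2⟩
  · rcases key x' y' q e2 h' (by rw [← hx, ← hy]; exact hne) with ⟨b1, b2⟩ | ⟨s', t', b1, b2⟩
    · rw [a1, b1, badj_irrefl] at e3
      exact absurd e3 (by simp)
    · rw [a2, b2, prj_emb, prj_blk] at hy
      exact up_ne_leaf (D := D) (Sum.inr l) _ hy
  · rcases key x' y' q e2 h' (by rw [← hx, ← hy]; exact hne) with ⟨b1, b2⟩ | ⟨s', t', b1, b2⟩
    · rw [a2, b2, prj_emb, prj_blk] at hy
      exact up_ne_leaf (D := D) (Sum.inr l) _ hy.symm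
    · rw [a2, b2, prj_blk, prj_blk] at hy
      simp only [Option.some.injEq, Sum.inr.injEq] at hy
      have hs : s = s' := by
        have := hB.simple l
        cases s <;> cases s' <;> simp_all
      rw [a1, b1, ← hs, badj_tb] at e3
      exact absurd e3 (by simp)

theorem adj_ne (hP : D.Pos i pos rot) (hB : D.Basic) {x y : Vx (J ⊕ L × Fin 7) (L × Fin 8)}
    (h : D.phi.adj x y) : x ≠ y := by
  rintro rfl
  obtain ⟨l, p, q, e1, e2, e3⟩ := adj_same hP hB h rfl
  have := (blk_inj (e1.symm.trans e2)).2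
  rw [this, badj_irrefl] at e3
  exact absurd e3 (by simp)

theorem phi_triFree (hP : D.Pos i pos rot) (hB : D.Basic) (hT : D.TriFree) : D.phi.TriFree := by
  have sy : ∀ {x y}, D.phi.adj x y → D.phi.adj y x := fun h => (phi_basic hB).adj_symm h
  intro x y z hxy hyz hzx
  by_cases h1 : prj x = prj y
  · by_cases h2 : prj y = prj z
    · obtain ⟨l, p, q, a1, a2, a3⟩ := adj_same hP hB hxy h1
      obtain ⟨l', q', r, b1, b2, b3⟩ := adj_same hP hB hyz h2
      obtain ⟨l'', r', p', c1, c2, c3⟩ := adj_same hP hB hzx (h2.symm.trans h1.symm)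
      obtain ⟨d1, d2⟩ := blk_inj (a2.symm.trans b1)
      obtain ⟨d3, d4⟩ := blk_inj (b2.symm.trans c1)
      obtain ⟨d5, d6⟩ := blk_inj (c2.symm.trans a1)
      subst d2 d4 d6
      have := badj_tri p' q a3 r b3
      rw [this] at c3
      exact absurd c3 (by simp)
    · exact adj_ne hP hB hxy (adj_unique hzx (sy hyz) h1 (by rw [h1]; exact fun h => h2 h.symm))
  · by_cases h2 : prj y = prj z
    · exact adj_ne hP hB hyz (adj_unique hxy (sy hzx) h2 h1)
    · by_cases h3 : prj z = prj x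
      · exact adj_ne hP hB hzx (adj_unique hyz (sy hxy) h3 h2)
      · exact hT _ _ _ (adj_prj hxy h1) (adj_prj hyz h2) (adj_prj hzx h3)

theorem phi_quadFree (hP : D.Pos i pos rot) (hB : D.Basic) (hT : D.TriFree) (hQ : D.QuadFree) :
    D.phi.QuadFree := by
  have sy : ∀ {x y}, D.phi.adj x y → D.phi.adj y x := fun h => (phi_basic hB).adj_symm h
  intro x y z w hxy hyz hzw hwx hxz hyw
  -- opposite vertices with the same projection
  have opp : ∀ {x y z w : Vx (J ⊕ L × Fin 7) (L × Fin 8)}, D.phi.adj x y → D.phi.adj y z →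
      D.phi.adj z w → D.phi.adj w x → x ≠ z → y ≠ w → prj x ≠ prj z := by
    intro x y z w hxy hyz hzw hwx hxz hyw h
    by_cases h1 : prj y = prj x
    · by_cases h2 : prj w = prj x
      · obtain ⟨l, p, q, a1, a2, a3⟩ := adj_same hP hB hxy h1.symm
        obtain ⟨l', q', r, b1, b2, b3⟩ := adj_same hP hB hyz (h1.trans h)
        obtain ⟨l'', r', s, c1, c2, c3⟩ := adj_same hP hB hzw (h.symm.trans h2.symm)
        obtain ⟨l''', s', p', d1, d2, d3⟩ := adj_same hP hB hwx h2
        obtain ⟨e1, e2⟩ := blk_inj (a2.symm.trans b1)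
        obtain ⟨e3, e4⟩ := blk_inj (b2.symm.trans c1)
        obtain ⟨e5, e6⟩ := blk_inj (c2.symm.trans d1)
        obtain ⟨e7, e8⟩ := blk_inj (d2.symm.trans a1)
        subst e2 e4 e6 e8
        subst e1 e3 e5
        have := badj_quad p' q a3 r b3 (by rintro rfl; exact hxz (a1.trans b2.symm)) s c3
          (by rintro rfl; exact hyw (a2.trans c2.symm))
        rw [this] at d3
        exact absurd d3 (by simp)
      · exact hxz (adj_unique hwx (sy hzw) h h2)
    · exact hxz (adj_unique (sy hxy) hyz h h1)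
  -- consecutive vertices with the same projection
  have con : ∀ {x y z w : Vx (J ⊕ L × Fin 7) (L × Fin 8)}, D.phi.adj x y → D.phi.adj y z →
      D.phi.adj z w → D.phi.adj w x → x ≠ z → y ≠ w → prj x ≠ prj y := by
    intro x y z w hxy hyz hzw hwx hxz hyw h
    have n1 := opp hxy hyz hzw hwx hxz hyw
    have n2 := opp hyz hzw hwx hxy hyw hxz.symm
    have n3 : prj y ≠ prj z := by rw [← h]; exact n1
    have n4 : prj w ≠ prj x := by rw [h]; exact n2.symm
    by_cases h2 : prj z = prj w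
    · exact adj_pair hP hB (sy hwx) hyz hxy h h2.symm n4.symm
    · refine hT _ _ _ (adj_prj hyz n3) (adj_prj hzw h2) ?_
      rw [← h]
      exact adj_prj hwx n4
  exact hQ _ _ _ _ (adj_prj hxy (con hxy hyz hzw hwx hxz hyw))
    (adj_prj hyz (con hyz hzw hwx hxy hyw hxz.symm))
    (adj_prj hzw (con hzw hwx hxy hyz hxz.symm hyw.symm))
    (adj_prj hwx (con hwx hxy hyz hzw hyw.symm hxz))
    (opp hxy hyz hzw hwx hxz hyw) (opp hyz hzw hwx hxy hyw hxz.symm)

end Dat

end Pool.Agent.U299.RS
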