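import Pool.Agent.U299.RS.Cut

/-! # The connectivity condition is preserved -/

set_option autoImplicit false

namespace Pool.Agent.U299.RS

open Pool.Agent.N366.RS (width width_pos Node IsChild tree leaf IsSnark IsRotationTSnark)

theorem gg_tt_ff (a : Bool) : gg true a + gg a false = 1 := by
  cases a <;> rfl

theorem dd_ff_tt (a : Bool) : dd false a + dd true a = 1 := by
  cases a <;> rfl

theorem sum_fst {L : Type} [Fintype L] [DecidableEq L] (l0 : L) (f : L × Bool → ℕ) :
    ∑ h : L × Bool, (if h.1 = l0 then f h else 0) = f (l0, false) + f (l0, true) := by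
  rw [Fintype.sum_prod_type]
  have : ∀ l : L, ∑ s : Bool, (if (l, s).1 = l0 then f (l, s) else 0) =
      if l = l0 then f (l, false) + f (l, true) else 0 := by
    intro l
    rw [Fintype.sum_bool]
    by_cases h : l = l0
    · simp [h, add_comm]
    · simp [h]
  rw [Finset.sum_congr rfl fun l _ => this l]
  simp

namespace Dat

variable {J L : Type} {D : Dat J L}

theorem sum_io [Fintype L] (hB : D.Basic) (f : L × Bool → ℕ) :
    ∑ h, f (D.io h) = ∑ h, f h :=
  Equiv.sum_comp (Function.Involutive.toPerm D.io hB.inv) f

/-- A vertex set of the old graph: as `S` outside the leaves, `f` on the leaves. -/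
def low (S : Vx (J ⊕ L × Fin 7) (L × Fin 8) → Bool) (f : L → Bool) : Vx J L → Bool
  | none => S none
  | some (Sum.inl x) => S (some (Sum.inl (Sum.inl x)))
  | some (Sum.inr l) => f l

theorem low_up (S : Vx (J ⊕ L × Fin 7) (L × Fin 8) → Bool) (f : L → Bool) (v : J ⊕ L) :
    low S f (D.up v) = S (emb (D.par v)) := by
  unfold up
  cases D.par v <;> rfl

theorem low_cut [Fintype J] [Fintype L] (S : Vx (J ⊕ L × Fin 7) (L × Fin 8) → Bool)
    (f : L → Bool) : D.cut (low S f) =
      ∑ x : J, dd (S (some (Sum.inl (Sum.inl x)))) (S (emb (D.par (Sum.inl x)))) +
      ∑ l : L, dd (f l) (S (emb (D.par (Sum.inr l)))) +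
      ∑ h : L × Bool, gg (f h.1) (f (D.io h).1) := by
  unfold cut
  rw [Fintype.sum_sum_type]
  simp only [low_up]
  rfl

/-- Every vertex is old or in a block. -/
theorem vx_cases (y : Vx (J ⊕ L × Fin 7) (L × Fin 8)) :
    (∃ o : Option J, y = emb o) ∨ ∃ l p, y = blk l p := by
  rcases y with _ | (x | ⟨l, p⟩) | ⟨l, j⟩
  · exact Or.inl ⟨none, rfl⟩
  · exact Or.inl ⟨some x, rfl⟩
  · refine Or.inr ⟨l, ⟨p.val, by omega⟩, ?_⟩
    unfold blk
    simp
  · refine Or.inr ⟨l, ⟨j.val + 7, by omega⟩, ?_⟩
    unfold blk
    simp

theorem emb_inj {o o' : Option J} (h : emb (L := L) o = emb o') : o = o' := by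
  cases o <;> cases o' <;> simp [emb] at h ⊢
  exact h

theorem emb_ne_blk (o : Option J) (l : L) (p : Fin 15) : emb o ≠ blk l p := by
  intro h
  have := congrArg prj h
  rw [prj_emb, prj_blk] at this
  cases o <;> simp at this

theorem blk_inj {l l' : L} {p p' : Fin 15} (h : blk (J := J) l p = blk l' p') :
    l = l' ∧ p = p' := by
  have h1 := congrArg prj h
  rw [prj_blk, prj_blk] at h1
  simp only [Option.some.injEq, Sum.inr.injEq] at h1
  subst h1
  refine ⟨rfl, ?_⟩
  unfold blk at h
  split_ifs at h with a b
  · simp only [Option.some.injEq, Sum.inl.injEq, Sum.inr.injEq, Prod.mk.injEq, true_and,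
      Fin.mk.injEq] at h
    exact Fin.ext h
  · simp at h
  · simp at h
  · simp only [Option.some.injEq, Sum.inr.injEq, Prod.mk.injEq, true_and, Fin.mk.injEq] at h
    exact Fin.ext (by omega)

theorem phi_cutGood [Fintype J] [Fintype L] (hB : D.Basic) (hC : D.CutGood) :
    D.phi.CutGood := by
  classical
  intro S
  by_cases hsp : ∃ l0, ¬ ∀ p, S (blk l0 p) = S (blk l0 0)
  · obtain ⟨l0, h0⟩ := hsp
    have hin0 : 2 ≤ inn (fun p => S (blk l0 p)) := (inn_ge _).resolve_left h0
    by_cases hsp1 : ∃ l1, l1 ≠ l0 ∧ ¬ ∀ p, S (blk l1 p) = S (blk l1 0)
    · -- two split blocks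
      obtain ⟨l1, h10, h1⟩ := hsp1
      have hin1 : 2 ≤ inn (fun p => S (blk l1 p)) := (inn_ge _).resolve_left h1
      left
      rw [phi_cut]
      have := Finset.add_le_sum (f := fun l => inn (fun p => S (blk l p))) (s := Finset.univ)
        (fun i _ => Nat.zero_le _) (Finset.mem_univ l1) (Finset.mem_univ l0) h10
      omega
    · -- one split block
      push Not at hsp1
      have hun : ∀ l, l ≠ l0 → ∀ j : Fin 8, S (some (Sum.inr (l, j))) = S (blk l 0) := by
        intro l hl j
        rw [← hsp1 l hl ⟨j.val + 7, by omega⟩]
        unfold blk
        simp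
      set A := ∑ x : J, dd (S (some (Sum.inl (Sum.inl x)))) (S (emb (D.par (Sum.inl x)))) with hA
      set B := ∑ l : L, dd (S (blk l 0)) (S (emb (D.par (Sum.inr l)))) with hBB
      set C := ∑ h : L × Bool, ∑ t : Bool, gg (S (some (Sum.inr (h.1, tj h.2 t))))
        (S (some (Sum.inr ((D.io h).1, tj (D.io h).2 t)))) with hCC
      have hcut : A + B + inn (fun p => S (blk l0 p)) + C ≤ D.phi.cut S := by
        rw [phi_cut]
        have := Finset.single_le_sum (f := fun l => inn (fun p => S (blk l p)))
          (s := Finset.univ) (fun i _ => Nat.zero_le _) (Finset.mem_univ l0)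
        omega
      let f : Bool → L → Bool := fun z l => if l = l0 then z else S (blk l 0)
      have f0 : ∀ z, f z l0 = z := fun z => by simp [f]
      have f1 : ∀ z l, l ≠ l0 → f z l = S (blk l 0) := fun z l h => by simp [f, h]
      by_cases hq : ∃ q, ∀ y, prj y ≠ some (Sum.inr l0) → S y = q
      · -- constant outside of the block
        obtain ⟨q, hq⟩ := hq
        have hqe : ∀ o : Option J, S (emb o) = q := by
          intro o
          apply hq
          rw [prj_emb]
          cases o <;> simp
        have hql : ∀ l, l ≠ l0 → ∀ p, S (blk l p) = q := by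
          intro l hl p
          apply hq
          rw [prj_blk]
          simpa using hl
        have hql' : ∀ l, l ≠ l0 → ∀ j : Fin 8, S (some (Sum.inr (l, j))) = q := by
          intro l hl j
          rw [hun l hl j, hql l hl]
        have hB1 : dd (S (blk l0 0)) q ≤ B := by
          have := Finset.single_le_sum
            (f := fun l => dd (S (blk l 0)) (S (emb (D.par (Sum.inr l)))))
            (s := Finset.univ) (fun i _ => Nat.zero_le _) (Finset.mem_univ l0)
          simp only [hqe] at this
          rw [hBB]
          simp only [hqe]
          exact this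
        have hC1 : (∑ t : Bool, dd (S (some (Sum.inr (l0, tj false t)))) q) +
            (∑ t : Bool, dd (S (some (Sum.inr (l0, tj true t)))) q) ≤ C := by
          have e1 : ∀ h : L × Bool,
              (if h.1 = l0 then ∑ t : Bool, gg (S (some (Sum.inr (h.1, tj h.2 t)))) q else 0) +
              (if (D.io h).1 = l0 then
                ∑ t : Bool, gg q (S (some (Sum.inr ((D.io h).1, tj (D.io h).2 t)))) else 0) ≤
              ∑ t : Bool, gg (S (some (Sum.inr (h.1, tj h.2 t))))
                (S (some (Sum.inr ((D.io h).1, tj (D.io h).2 t)))) := by
            intro h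
            have hne := hB.ne h
            by_cases h1 : h.1 = l0
            · have h2 : (D.io h).1 ≠ l0 := by rw [← h1]; exact hne
              rw [if_pos h1, if_neg h2]
              simp only [hql' _ h2, add_zero]
              exact le_rfl
            · rw [if_neg h1]
              by_cases h2 : (D.io h).1 = l0
              · rw [if_pos h2]
                simp only [hql' _ h1, zero_add]
                exact le_rfl
              · rw [if_neg h2]
                exact Nat.zero_le _
          have e2 := Finset.sum_le_sum (s := (Finset.univ : Finset (L × Bool)))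
            fun h _ => e1 h
          rw [Finset.sum_add_distrib] at e2
          have e3 := sum_io hB (fun h => if h.1 = l0 then
            ∑ t : Bool, gg q (S (some (Sum.inr (h.1, tj h.2 t)))) else 0)
          rw [e3, sum_fst l0 (fun h => ∑ t : Bool, gg (S (some (Sum.inr (h.1, tj h.2 t)))) q),
            sum_fst l0 (fun h => ∑ t : Bool, gg q (S (some (Sum.inr (h.1, tj h.2 t)))))] at e2
          rw [hCC]
          refine le_trans (le_of_eq ?_) e2
          simp only [← gg_add, Fintype.sum_bool]
          ring
        have hbd : inn (fun p => S (blk l0 p)) + bd (fun p => S (blk l0 p)) q ≤ D.phi.cut S := by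
          refine le_trans ?_ hcut
          unfold bd
          have t1 : blk (J := J) l0 7 = some (Sum.inr (l0, tj false false)) := rfl
          have t2 : blk (J := J) l0 9 = some (Sum.inr (l0, tj false true)) := rfl
          have t3 : blk (J := J) l0 12 = some (Sum.inr (l0, tj true false)) := rfl
          have t4 : blk (J := J) l0 14 = some (Sum.inr (l0, tj true true)) := rfl
          simp only [Fintype.sum_bool] at hC1
          simp only [t1, t2, t3, t4]
          omega
        rcases inn_bd (fun p => S (blk l0 p)) q with h | h | ⟨h, p, hp1, hp2⟩
        · exact absurd (fun p => (h p).trans (h 0).symm) h0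
        · exact Or.inl (h.trans hbd)
        · refine Or.inr (Or.inr ⟨h.trans hbd, blk l0 p, q, hp1, fun y hy => ?_⟩)
          rcases vx_cases y with ⟨o, rfl⟩ | ⟨l, p', rfl⟩
          · exact hqe o
          · by_cases hl : l = l0
            · subst hl
              exact hp2 p' fun h => hy (by rw [h])
            · exact hql l hl p'
      · -- not constant outside of the block
        have h3 : ∀ z, 3 ≤ D.cut (low S (f z)) := by
          intro z
          rcases hC (low S (f z)) with h | ⟨q, h⟩ | ⟨h, _⟩
          · omega
          · exfalso
            apply hq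
            refine ⟨q, fun y hy => ?_⟩
            rcases vx_cases y with ⟨o, rfl⟩ | ⟨l, p, rfl⟩
            · cases o with
              | none => exact h none
              | some x => exact h (some (Sum.inl x))
            · have hl : l ≠ l0 := by
                rw [prj_blk] at hy
                simpa using hy
              have := h (some (Sum.inr l))
              simp only [low] at this
              rw [f1 z l hl] at this
              rw [hsp1 l hl, this]
          · exact h
        have g0 := h3 false
        have g1 := h3 true
        rw [low_cut] at g0 g1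
        have kB : ∑ l : L, dd (f false l) (S (emb (D.par (Sum.inr l)))) +
            ∑ l : L, dd (f true l) (S (emb (D.par (Sum.inr l)))) ≤ 2 * B + 1 := by
          rw [← Finset.sum_add_distrib]
          have : ∀ l : L, dd (f false l) (S (emb (D.par (Sum.inr l)))) +
              dd (f true l) (S (emb (D.par (Sum.inr l)))) ≤
              2 * dd (S (blk l 0)) (S (emb (D.par (Sum.inr l)))) + if l = l0 then 1 else 0 := by
            intro l
            by_cases hl : l = l0
            · subst hl
              rw [f0, f0, if_pos rfl, dd_ff_tt]
              omega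
            · rw [f1 _ l hl, f1 _ l hl, if_neg hl]
              omega
          refine (Finset.sum_le_sum fun l _ => this l).trans (le_of_eq ?_)
          rw [Finset.sum_add_distrib, ← Finset.mul_sum, Finset.sum_ite_eq' Finset.univ l0,
            if_pos (Finset.mem_univ l0)]
        have kC : ∑ h : L × Bool, gg (f false h.1) (f false (D.io h).1) +
            ∑ h : L × Bool, gg (f true h.1) (f true (D.io h).1) ≤ 2 * C + 2 := by
          rw [← Finset.sum_add_distrib]
          have : ∀ h : L × Bool, gg (f false h.1) (f false (D.io h).1) +
              gg (f true h.1) (f true (D.io h).1) ≤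
              2 * (∑ t : Bool, gg (S (some (Sum.inr (h.1, tj h.2 t))))
                (S (some (Sum.inr ((D.io h).1, tj (D.io h).2 t))))) +
              ((if h.1 = l0 then gg true (f false (D.io h).1) else 0) +
              (if (D.io h).1 = l0 then gg (f false h.1) false else 0)) := by
            intro h
            have hne := hB.ne h
            by_cases h1 : h.1 = l0
            · have h2 : (D.io h).1 ≠ l0 := by rw [← h1]; exact hne
              rw [if_pos h1, if_neg h2, h1, f0, f0, f1 _ _ h2, f1 _ _ h2]
              have : gg false (S (blk (D.io h).1 0)) = 0 := by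
                cases S (blk (D.io h).1 0) <;> rfl
              omega
            · rw [if_neg h1]
              by_cases h2 : (D.io h).1 = l0
              · rw [if_pos h2, h2, f0, f0, f1 _ _ h1, f1 _ _ h1]
                have : gg (S (blk h.1 0)) true = 0 := by
                  cases S (blk h.1 0) <;> rfl
                omega
              · rw [if_neg h2, f1 _ _ h1, f1 _ _ h1, f1 _ _ h2, f1 _ _ h2]
                simp only [hun _ h1, hun _ h2, Fintype.sum_bool]
                omega
          refine (Finset.sum_le_sum fun l _ => this l).trans ?_
          rw [Finset.sum_add_distrib, ← Finset.mul_sum, Finset.sum_add_distrib]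
          have e3 := sum_io hB (fun h => if h.1 = l0 then gg (f false (D.io h).1) false else 0)
          simp only [hB.inv] at e3
          rw [e3, sum_fst l0 (fun h => gg true (f false (D.io h).1)),
            sum_fst l0 (fun h => gg (f false (D.io h).1) false)]
          have a1 := gg_tt_ff (f false (D.io (l0, false)).1)
          have a2 := gg_tt_ff (f false (D.io (l0, true)).1)
          omega
        left
        omega
  · -- no split block
    push Not at hsp
    have hS : ∀ y, S y = low S (fun l => S (blk l 0)) (prj y) := by
      intro y
      rcases vx_cases y with ⟨o, rfl⟩ | ⟨l, p, rfl⟩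
      · cases o <;> rfl
      · rw [prj_blk, hsp l p]
        rfl
    have hun : ∀ l, ∀ j : Fin 8, S (some (Sum.inr (l, j))) = S (blk l 0) := by
      intro l j
      rw [← hsp l ⟨j.val + 7, by omega⟩]
      unfold blk
      simp
    have hcut : D.cut (low S (fun l => S (blk l 0))) +
        ∑ h : L × Bool, gg (S (blk h.1 0)) (S (blk (D.io h).1 0)) ≤ D.phi.cut S := by
      rw [phi_cut, low_cut]
      simp only [hun, Fintype.sum_bool]
      rw [Finset.sum_add_distrib]
      omega
    rcases hC (low S (fun l => S (blk l 0))) with h | ⟨q, h⟩ | ⟨h, x, q, hx, hx'⟩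
    · left; omega
    · exact Or.inr (Or.inl ⟨q, fun y => by rw [hS, h]⟩)
    · rcases x with _ | x | l
      · refine Or.inr (Or.inr ⟨by omega, none, q, hx, fun y hy => ?_⟩)
        rw [hS]
        apply hx'
        rcases vx_cases y with ⟨o, rfl⟩ | ⟨l, p, rfl⟩
        · rw [prj_emb]
          cases o with
          | none => exact absurd rfl hy
          | some x => simp
        · rw [prj_blk]
          simp
      · refine Or.inr (Or.inr ⟨by omega, some (Sum.inl (Sum.inl x)), q, hx, fun y hy => ?_⟩)
        rw [hS]
        apply hx'
        rcases vx_cases y with ⟨o, rfl⟩ | ⟨l, p, rfl⟩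
        · rw [prj_emb]
          cases o with
          | none => simp
          | some x' =>
            simp only [Option.map_some, ne_eq, Option.some.injEq, Sum.inl.injEq]
            rintro rfl
            exact hy rfl
        · rw [prj_blk]
          simp
      · left
        have hl : S (blk l 0) = !q := hx
        have hl' : ∀ l', l' ≠ l → S (blk l' 0) = q := by
          intro l' h'
          have := hx' (some (Sum.inr l')) (by simpa using h')
          exact this
        have hsum : 1 ≤ ∑ h : L × Bool, gg (S (blk h.1 0)) (S (blk (D.io h).1 0)) := by
          cases q with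
          | false =>
            have := Finset.single_le_sum
              (f := fun h : L × Bool => gg (S (blk h.1 0)) (S (blk (D.io h).1 0)))
              (s := Finset.univ) (fun i _ => Nat.zero_le _) (Finset.mem_univ (l, false))
            simp only at this
            rw [hl, hl' _ (hB.ne (l, false))] at this
            exact this
          | true =>
            have := Finset.single_le_sum
              (f := fun h : L × Bool => gg (S (blk h.1 0)) (S (blk (D.io h).1 0)))
              (s := Finset.univ) (fun i _ => Nat.zero_le _) (Finset.mem_univ (D.io (l, false)))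
            rw [hB.inv, hl, hl' _ (hB.ne (l, false))] at this
            exact this
        omega

end Dat

end Pool.Agent.U299.RS
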