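import Pool.Agent.U299.RS.Blk

/-! # Replacing every leaf by a block -/

set_option autoImplicit false

namespace Pool.Agent.U299.RS

open Pool.Agent.N366.RS (width width_pos Node IsChild tree leaf IsSnark IsRotationTSnark)

namespace Dat

variable {J L : Type} (D : Dat J L)

/-- Every leaf `l` is replaced by the block with inner vertices `(l, p)`, `p : Fin 7`, and leaves
`(l, j)`, `j : Fin 8`; every edge between two leaves is replaced by two edges. -/
def phi : Dat (J ⊕ L × Fin 7) (L × Fin 8) where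
  par
    | Sum.inl (Sum.inl x) => (D.par (Sum.inl x)).map Sum.inl
    | Sum.inl (Sum.inr (l, p)) =>
      match hp p with
      | none => (D.par (Sum.inr l)).map Sum.inl
      | some q => some (Sum.inr (l, q))
    | Sum.inr (l, j) => some (Sum.inr (l, lp j))
  io h :=
    match tt h.1.2 h.2 with
    | Sum.inl (j, k) => ((h.1.1, j), k)
    | Sum.inr (s, t) => (((D.io (h.1.1, s)).1, tj (D.io (h.1.1, s)).2 t), true)

/-- The image of a vertex which is not a leaf. -/
def emb : Option J → Vx (J ⊕ L × Fin 7) (L × Fin 8)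
  | none => none
  | some x => some (Sum.inl (Sum.inl x))

/-- The vertices of the block of the leaf `l`. -/
def blk (l : L) (p : Fin 15) : Vx (J ⊕ L × Fin 7) (L × Fin 8) :=
  if h : p.val < 7 then some (Sum.inl (Sum.inr (l, ⟨p.val, h⟩)))
  else some (Sum.inr (l, ⟨p.val - 7, by omega⟩))

/-- The projection to the old vertices. -/
def prj : Vx (J ⊕ L × Fin 7) (L × Fin 8) → Vx J L
  | none => none
  | some (Sum.inl (Sum.inl x)) => some (Sum.inl x)
  | some (Sum.inl (Sum.inr (l, _))) => some (Sum.inr l)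
  | some (Sum.inr (l, _)) => some (Sum.inr l)

variable {D}

theorem io_inl {l : L} {j : Fin 8} {k : Bool} {j' : Fin 8} {k' : Bool}
    (h : tt j k = Sum.inl (j', k')) : D.phi.io ((l, j), k) = ((l, j'), k') := by
  simp only [phi, h]

theorem io_inr {l : L} {j : Fin 8} {k s t : Bool} (h : tt j k = Sum.inr (s, t)) :
    D.phi.io ((l, j), k) = (((D.io (l, s)).1, tj (D.io (l, s)).2 t), true) := by
  simp only [phi, h]

theorem io_tj (l : L) (s t : Bool) :
    D.phi.io ((l, tj s t), true) = (((D.io (l, s)).1, tj (D.io (l, s)).2 t), true) :=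
  io_inr (tt_tj s t)

/-- The two kinds of half-edges. -/
theorem io_cases (l : L) (j : Fin 8) (k : Bool) :
    (∃ j' k', tt j k = Sum.inl (j', k') ∧ j' ≠ j ∧ D.phi.io ((l, j), k) = ((l, j'), k')) ∨
    (∃ s t, tt j k = Sum.inr (s, t) ∧ j = tj s t ∧ k = true ∧
      D.phi.io ((l, j), k) = (((D.io (l, s)).1, tj (D.io (l, s)).2 t), true)) := by
  rcases h : tt j k with ⟨j', k'⟩ | ⟨s, t⟩
  · exact Or.inl ⟨j', k', rfl, (tt_inv j k j' k' h).2, io_inl h⟩
  · exact Or.inr ⟨s, t, rfl, (tt_inr j k s t h).1, (tt_inr j k s t h).2, io_inr h⟩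

theorem tt_false : ∀ j : Fin 8, ∃ p, tt j false = Sum.inl p := by decide

theorem tt_tf : ∀ (j : Fin 8) (p q : Fin 8 × Bool), tt j false = Sum.inl p →
    tt j true = Sum.inl q → p.1 ≠ q.1 := by decide

theorem phi_basic (hB : D.Basic) : D.phi.Basic := by
  refine ⟨?_, ?_, ?_⟩
  · rintro ⟨⟨l, j⟩, k⟩
    rcases io_cases (D := D) l j k with ⟨j', k', h1, h2, h3⟩ | ⟨s, t, h1, h2, h3, h4⟩
    · rw [h3, io_inl (tt_inv _ _ _ _ h1).1]
    · rw [h4, io_tj, Prod.mk.eta, hB.inv, h2, h3]
  · rintro ⟨⟨l, j⟩, k⟩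
    rcases io_cases (D := D) l j k with ⟨j', k', h1, h2, h3⟩ | ⟨s, t, h1, h2, h3, h4⟩
    · rw [h3]
      simp only [ne_eq, Prod.mk.injEq, true_and]
      exact h2
    · rw [h4]
      simp only [ne_eq, Prod.mk.injEq, not_and]
      intro h
      exact absurd h (hB.ne (l, s))
  · rintro ⟨l, j⟩
    obtain ⟨⟨j', k'⟩, hf⟩ := tt_false j
    rw [io_inl hf]
    rcases io_cases (D := D) l j true with ⟨j'', k'', h1, h2, h3⟩ | ⟨s, t, h1, h2, h3, h4⟩
    · rw [h3]
      simp only [ne_eq, Prod.mk.injEq, true_and]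
      exact tt_tf j _ _ hf h1
    · rw [h4]
      simp only [ne_eq, Prod.mk.injEq, not_and]
      intro h
      exact absurd h.symm (hB.ne (l, s))

/-! ### Parents -/

theorem phi_up_inl (x : J) : D.phi.up (Sum.inl (Sum.inl x)) = emb (L := L) (D.par (Sum.inl x)) := by
  unfold up
  simp only [phi]
  cases D.par (Sum.inl x) <;> rfl

theorem phi_up_root (l : L) :
    D.phi.up (Sum.inl (Sum.inr (l, 0))) = emb (L := L) (D.par (Sum.inr l)) := by
  unfold up
  simp only [phi, hp]
  cases D.par (Sum.inr l) <;> rfl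

theorem phi_up_inr (l : L) {p q : Fin 7} (h : hp p = some q) :
    D.phi.up (Sum.inl (Sum.inr (l, p))) = some (Sum.inl (Sum.inr (l, q))) := by
  unfold up
  simp only [phi, h]
  rfl

theorem phi_up_leaf (l : L) (j : Fin 8) :
    D.phi.up (Sum.inr (l, j)) = some (Sum.inl (Sum.inr (l, lp j))) := rfl

theorem prj_emb (o : Option J) : prj (emb (L := L) o) = o.map Sum.inl := by
  cases o <;> rfl

theorem prj_up_inl (x : J) : prj (D.phi.up (Sum.inl (Sum.inl x))) = D.up (Sum.inl x) := by
  rw [phi_up_inl, prj_emb]; rfl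

theorem prj_up_root (l : L) : prj (D.phi.up (Sum.inl (Sum.inr (l, 0)))) = D.up (Sum.inr l) := by
  rw [phi_up_root, prj_emb]; rfl

theorem prj_blk (l : L) (p : Fin 15) : prj (blk (J := J) l p) = some (Sum.inr l) := by
  unfold blk
  split_ifs <;> rfl

end Dat

end Pool.Agent.U299.RS
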